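import Pool.Agent.H77.AQ.Cma
import Pool.Agent.H57.SL.Ast
import Pool.Agent.H57.SL.Wsm
import Pool.Agent.H57.AN.Df
import Pool.Agent.H1.GS.Icg

/-!
# H77 AQ MNA: analytic part of chapter M3

`K`, `M` number fields, `M / K` any extension (`[M : K] ≤ 9` in `mna`). `dg K M l`: the number of the primes `w` of `M` over `l` with `nm w = nm l`.
* `asc`: complex sums from a nontrivial ray class character of `M`.
* `mna`: the main term of the sum of `∏ dg` over the squarefree products prime to `S` and `q`.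
-/

set_option autoImplicit false

open scoped NumberField nonZeroDivisors Classical
open IsDedekindDomain H63.MA NumberField H1.LS4 H36.QA H57.LI H57.LC H57.SL Filter Topology

noncomputable section

namespace H77.AQ

/-- the number of the primes of degree one over `l` -/
def dg (K M : Type) [Field K] [NumberField K] [Field M] [NumberField M] [Algebra K M]
    (l : Pl K) : ℝ := ({w : Pl M | Over w l ∧ nm w = nm l}.ncard : ℝ)

variable (K M : Type) [Field K] [NumberField K] [Field M] [NumberField M] [Algebra K M]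

/-- nontrivial characters -/
theorem asc : ∃ (C : ℝ) (A : ℕ) (δ : ℝ), 1 ≤ C ∧ 0 < δ ∧ δ ≤ 1 / 4 ∧
    ∀ 𝔣 : Ideal (𝓞 M), 𝔣 ≠ ⊥ → ∀ ψ : RC M 𝔣, ψ.Non →
      ∀ g : Pl K → ℂ, (∀ l, ‖g l‖ ≤ 9) → ∀ Bd : Finset (Pl K),
      (∀ l, l ∉ Bd → (nm l).Prime → d1 K ψ.χ l = g l) → ∀ Y : ℝ, 1 ≤ Y →
      ‖∑ s ∈ (prK K).SF Y, ∏ l ∈ s, g l‖ ≤
        C * C ^ Bd.card * (Ideal.absNorm 𝔣 : ℝ) ^ A * Y ^ (1 - δ) := by
  obtain ⟨C₁, A, δ, hC₁, hδ, hδ1, h1⟩ := H1.GS.icg (Module.finrank ℚ M)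
  obtain ⟨C₂, c, hC₂, hc, h2⟩ := cmc (prK K) (Module.finrank ℚ M) {l | ¬ (nm l).Prime} (thn K)
  have hdd : 1 ≤ dd M := one_le_dd M
  have hddA : 1 ≤ dd M ^ A := one_le_pow₀ hdd
  have hX : 1 ≤ C₂ * (C₁ * dd M ^ A) :=
    one_le_mul_of_one_le_of_one_le hC₂ (one_le_mul_of_one_le_of_one_le hC₁ hddA)
  refine ⟨max (C₂ * (C₁ * dd M ^ A)) c, A, δ, le_trans hc (le_max_right _ _), hδ, hδ1, ?_⟩
  intro 𝔣 h𝔣 ψ hψ g hg Bd hBd Y hY
  have h3 := h2 (Ideal (𝓞 M))⁰ (Pl M) (idG M) (rch ψ) (rch_norm ψ) (bel K) (rdg K)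
    (fun q => (rdg_spec q).1) (fun q => by rw [prK_N, idG_Npr]; exact (rdg_spec q).2)
    (fun l => bel_card (K := K) (E := M) l) g hg Bd (fun l hl hp => by
      rw [bel_set]
      exact hBd l hl (not_not.1 hp)) (C₁ * (dd M * Ideal.absNorm 𝔣) ^ A) δ hδ hδ1 (fun x hx => by
      rw [idG_W ψ x (by linarith)]
      exact h1 M rfl 𝔣 h𝔣 ψ hψ x hx) Y hY
  refine h3.trans ?_
  refine mul_le_mul_of_nonneg_right ?_ (Real.rpow_nonneg (by linarith) _)
  have e : C₂ * c ^ Bd.card * (C₁ * (dd M * Ideal.absNorm 𝔣) ^ A) =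
      (C₂ * (C₁ * dd M ^ A)) * c ^ Bd.card * (Ideal.absNorm 𝔣 : ℝ) ^ A := by
    rw [mul_pow]
    ring
  rw [e]
  refine mul_le_mul_of_nonneg_right ?_ (by positivity)
  exact mul_le_mul (le_max_left _ _) (pow_le_pow_left₀ (by linarith) (le_max_right _ _) _)
    (by positivity) (le_trans (by linarith) (le_max_left _ _))

variable {M}

private theorem w_one (F : Type) [Field F] [NumberField F] (x : ℝ) (hx : 0 ≤ x) :
    (idG F).W 1 x = ((WS (∅ : Finset (Pl F)) x : ℝ) : ℂ) := by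
  unfold GM.W WS
  have h1 : ((IN F x).filter fun I => ∀ v ∈ (∅ : Finset (Pl F)), ¬ v.asIdeal ∣ I) = IN F x :=
    Finset.filter_true_of_mem fun _ _ v hv => absurd hv (Finset.notMem_empty v)
  rw [h1]
  have h2 : ∑ I ∈ (idG F).B x, (1 : (Ideal (𝓞 F))⁰ →* ℂ) I = (((idG F).B x).card : ℂ) := by
    simp
  rw [h2]
  have h3 : ((idG F).B x).card = (IN F x).card := by
    refine Finset.card_bij (fun I _ => (I : Ideal (𝓞 F))) ?_ ?_ ?_
    · intro I hI
      exact (mem_IN hx).2 ⟨(idG F).mem_B.1 hI, idg_ne F I⟩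
    · intro I _ J _ h
      exact Subtype.ext h
    · intro I hI
      obtain ⟨h1, h2⟩ := (mem_IN hx).1 hI
      exact ⟨⟨I, mem_nonZeroDivisors_of_ne_zero (by rw [Ideal.zero_eq_bot]; exact h2)⟩,
        (idG F).mem_B.2 h1, rfl⟩
  rw [h3]
  norm_cast

private theorem fin_ov (l : Pl K) : {w : Pl M | Over w l ∧ nm w = nm l}.Finite := by
  rw [← bel_set]
  exact (bel_card (K := K) (E := M) l).1.subset fun w hw => hw.1

/-- positive products -/
private theorem pos_prod {ι : Type} {F : ι → ℂ} {r : ι → ℝ} {L : ℂ} (hL : HasProd F L)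
    (hr : ∀ l, F l = (r l : ℂ)) (hr0 : ∀ l, 0 < r l) (hne : L ≠ 0) : ∃ x : ℝ, 0 < x ∧ L = x := by
  have h1 : Tendsto (fun T : Finset ι => ∏ l ∈ T, F l) atTop (𝓝 L) := hL
  have h2 : ∀ T : Finset ι, ∏ l ∈ T, F l = ((∏ l ∈ T, r l : ℝ) : ℂ) := by
    intro T
    push_cast
    exact Finset.prod_congr rfl fun l _ => hr l
  have him : Tendsto (fun T : Finset ι => (∏ l ∈ T, F l).im) atTop (𝓝 L.im) :=
    (Complex.continuous_im.tendsto L).comp h1
  have hre : Tendsto (fun T : Finset ι => (∏ l ∈ T, F l).re) atTop (𝓝 L.re) :=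
    (Complex.continuous_re.tendsto L).comp h1
  have h3 : L.im = 0 := by
    refine tendsto_nhds_unique him ?_
    simp only [h2, Complex.ofReal_im]
    exact tendsto_const_nhds
  have h4 : 0 ≤ L.re := by
    refine ge_of_tendsto hre (Filter.Eventually.of_forall fun T => ?_)
    rw [h2, Complex.ofReal_re]
    exact Finset.prod_nonneg fun l _ => (hr0 l).le
  have h5 : L = ((L.re : ℝ) : ℂ) := Complex.ext rfl (by rw [h3, Complex.ofReal_im])
  refine ⟨L.re, lt_of_le_of_ne h4 fun h6 => hne ?_, h5⟩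
  rw [h5, ← h6, Complex.ofReal_zero]

variable (M)

/-- the main term -/
theorem mna (hM : Module.finrank K M ≤ 9) (S : Finset (Pl K)) : ∃ (κ C δ : ℝ), 0 < κ ∧ 1 ≤ C ∧
    0 < δ ∧ δ ≤ 1 / 4 ∧ ∀ (q : Finset (Pl K)) (Y : ℝ), 1 ≤ Y →
      |∑ s ∈ (prK K).SF Y, pd (off (S ∪ q) (dg K M)) s -
        κ * (∏ l ∈ q \ S, (1 + dg K M l / nm l)⁻¹) * Y| ≤ C * C ^ q.card * Y ^ (1 - δ) := by
  obtain ⟨κ, hκ, C₁, δ, hC₁, hδ, hδ1, h1⟩ := wsm M (∅ : Finset (Pl M))
  obtain ⟨C₂, c, hC₂, hc, h2⟩ := cma (prK K) (Module.finrank ℚ M) {l | ¬ (nm l).Prime} (thn K)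
  have hdg0 : ∀ l, 0 ≤ dg K M l := fun l => Nat.cast_nonneg _
  have hdg9 : ∀ l, dg K M l ≤ 9 := by
    intro l
    unfold dg
    have h3 : {w : Pl M | Over w l ∧ nm w = nm l}.ncard ≤ Module.finrank K M := by
      rw [Set.ncard_eq_toFinset_card _ (fin_ov K l)]
      refine H57.AN.fib K l _ fun w hw => ?_
      exact below_unique (H57.AN.dn_over K w) ((fin_ov K l).mem_toFinset.1 hw).1
    exact_mod_cast h3.trans hM
  obtain ⟨D, hD⟩ : ∃ D, D = max C₁ κ := ⟨_, rfl⟩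
  have hD1 : 1 ≤ D := by rw [hD]; exact hC₁.trans (le_max_left _ _)
  have hN0 : ∀ l : Pl K, (0 : ℝ) < (prK K).N l := fun l => by linarith [(prK K).two_le l]
  -- the theorem for one `q`
  have hq : ∀ q : Finset (Pl K), ∃ L : ℂ, HasProd (Eu (idG M) (prK K) 1 (bel K)
      (fun l => ((off (S ∪ q) (dg K M) l : ℝ) : ℂ))) L ∧
      ((∀ l, Eu (idG M) (prK K) 1 (bel K) (fun l => ((off (S ∪ q) (dg K M) l : ℝ) : ℂ)) l ≠ 0) →
        L ≠ 0) ∧ ∀ Y : ℝ, 1 ≤ Y →
        ‖((∑ s ∈ (prK K).SF Y, pd (off (S ∪ q) (dg K M)) s : ℝ) : ℂ) - L * κ * Y‖ ≤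
          C₂ * c ^ (S ∪ q).card * D * Y ^ (1 - δ) := by
    intro q
    obtain ⟨L, hL1, hL2, hL3⟩ := h2 (Ideal (𝓞 M))⁰ (Pl M) (idG M) 1 (fun I => by simp) (bel K)
      (rdg K) (fun w => (rdg_spec w).1) (fun w => by rw [prK_N, idG_Npr]; exact (rdg_spec w).2)
      (fun l => bel_card (K := K) (E := M) l) (fun l => ((off (S ∪ q) (dg K M) l : ℝ) : ℂ))
      (fun l => by
        rw [Complex.norm_real, Real.norm_eq_abs]
        unfold off
        split_ifs
        · simp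
        · rw [abs_of_nonneg (hdg0 l)]
          exact hdg9 l) (S ∪ q) (fun l hl _ => by
        rw [bel_set]
        unfold off
        rw [if_neg hl]
        unfold dg
        rw [finsum_mem_eq_finite_toFinset_sum _ (fin_ov K l),
          Set.ncard_eq_toFinset_card _ (fin_ov K l)]
        simp) (κ : ℂ) D δ hδ hδ1 (by
        rw [Complex.norm_real, Real.norm_of_nonneg hκ.le, hD]
        exact le_max_right _ _) (fun x hx => by
        rw [w_one M x (by linarith)]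
        have h3 := h1 x hx
        have h4 : ((WS (∅ : Finset (Pl M)) x : ℝ) : ℂ) - κ * x =
            ((WS (∅ : Finset (Pl M)) x - κ * x : ℝ) : ℂ) := by push_cast; ring
        rw [h4, Complex.norm_real, Real.norm_eq_abs]
        refine h3.trans (mul_le_mul_of_nonneg_right ?_ (Real.rpow_nonneg (by linarith) _))
        rw [hD]
        exact le_max_left _ _)
    refine ⟨L, hL1, hL2, fun Y hY => ?_⟩
    have h3 := hL3 Y hY
    have h4 : ∑ s ∈ (prK K).SF Y, ∏ i ∈ s, ((off (S ∪ q) (dg K M) i : ℝ) : ℂ) =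
        ((∑ s ∈ (prK K).SF Y, pd (off (S ∪ q) (dg K M)) s : ℝ) : ℂ) := by
      unfold pd
      push_cast
      rfl
    rwa [h4] at h3
  -- the Euler factors
  obtain ⟨E, hE⟩ : ∃ E : Pl K → ℝ, ∀ l, 0 < E l ∧
      ∏ᶠ w ∈ {w : Pl M | bel K w = l}, (1 - (1 : (Ideal (𝓞 M))⁰ →* ℂ) ((idG M).pr w) /
        ((idG M).N ((idG M).pr w) : ℂ)) = (E l : ℂ) := by
    refine ⟨fun l => ∏ w ∈ (bel_card (K := K) (E := M) l).1.toFinset,
      (1 - 1 / ((idG M).N ((idG M).pr w) : ℝ)), fun l => ⟨?_, ?_⟩⟩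
    · refine Finset.prod_pos fun w _ => ?_
      have h3 : (2 : ℝ) ≤ (idG M).N ((idG M).pr w) := by exact_mod_cast (idG M).two w
      rw [sub_pos, div_lt_one (by linarith)]
      linarith
    · rw [finprod_mem_eq_finite_toFinset_prod _ (bel_card (K := K) (E := M) l).1]
      push_cast
      rfl
  have hEu : ∀ (q : Finset (Pl K)) (l : Pl K), Eu (idG M) (prK K) 1 (bel K)
      (fun l => ((off (S ∪ q) (dg K M) l : ℝ) : ℂ)) l =
      (((1 + off (S ∪ q) (dg K M) l / (prK K).N l) * E l : ℝ) : ℂ) := by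
    intro q l
    unfold Eu
    rw [(hE l).2]
    push_cast
    rfl
  have hoff0 : ∀ q l, 0 ≤ off (S ∪ q) (dg K M) l := by
    intro q l
    unfold off
    split_ifs
    · exact le_rfl
    · exact hdg0 l
  have hpos : ∀ q l, 0 < (1 + off (S ∪ q) (dg K M) l / (prK K).N l) * E l := by
    intro q l
    have h3 : 0 ≤ off (S ∪ q) (dg K M) l / (prK K).N l := div_nonneg (hoff0 q l) (hN0 l).le
    exact mul_pos (by linarith) (hE l).1
  choose L hL1 hL2 hL3 using hq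
  obtain ⟨x, hx0, hx⟩ := pos_prod (hL1 ∅) (hEu ∅) (hpos ∅) (hL2 ∅ fun l => by
    rw [hEu]
    exact_mod_cast (hpos ∅ l).ne')
  have hLq : ∀ q, L q = ((x * ∏ l ∈ q \ S, (1 + dg K M l / nm l)⁻¹ : ℝ) : ℂ) := by
    intro q
    obtain ⟨h, hh⟩ : ∃ h : Pl K → ℂ, h = fun l =>
      if l ∈ q \ S then ((1 + dg K M l / nm l : ℝ) : ℂ) else 1 := ⟨_, rfl⟩
    have hhl : ∀ l, h l = if l ∈ q \ S then ((1 + dg K M l / nm l : ℝ) : ℂ) else 1 := fun l => by
      rw [hh]
    have hhp : HasProd h (∏ l ∈ q \ S, h l) := by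
      refine hasProd_prod_of_ne_finset_one fun l hl => ?_
      rw [hh]
      exact if_neg hl
    have h3 := (hL1 q).mul hhp
    have h4 : (fun l => Eu (idG M) (prK K) 1 (bel K)
        (fun l => ((off (S ∪ q) (dg K M) l : ℝ) : ℂ)) l * h l) =
        Eu (idG M) (prK K) 1 (bel K) (fun l => ((off (S ∪ ∅) (dg K M) l : ℝ) : ℂ)) := by
      funext l
      rw [hEu, hEu, hhl]
      by_cases hl : l ∈ q \ S
      · rw [if_pos hl]
        rw [Finset.mem_sdiff] at hl
        unfold off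
        rw [if_pos (Finset.mem_union_right _ hl.1), if_neg (by simp [hl.2]), prK_N]
        push_cast
        ring
      · rw [if_neg hl, mul_one]
        have h5 : off (S ∪ q) (dg K M) l = off (S ∪ ∅) (dg K M) l := by
          unfold off
          rw [Finset.mem_sdiff, not_and, not_not] at hl
          by_cases h6 : l ∈ S
          · rw [if_pos (Finset.mem_union_left _ h6), if_pos (Finset.mem_union_left _ h6)]
          · have h7 : l ∉ q := fun h8 => h6 (hl h8)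
            rw [if_neg (by simp [h6, h7]), if_neg (by simp [h6])]
        rw [h5]
    rw [h4] at h3
    have h5 := h3.unique (hL1 ∅)
    have h6 : ∏ l ∈ q \ S, h l = ((∏ l ∈ q \ S, (1 + dg K M l / nm l) : ℝ) : ℂ) := by
      push_cast
      refine Finset.prod_congr rfl fun l hl => ?_
      rw [hh]
      simp only [if_pos hl]
      push_cast
      rfl
    have h7 : (0 : ℝ) < ∏ l ∈ q \ S, (1 + dg K M l / nm l) := by
      refine Finset.prod_pos fun l _ => ?_
      have : 0 ≤ dg K M l / nm l := div_nonneg (hdg0 l) (Nat.cast_nonneg _)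
      linarith
    rw [h6, hx] at h5
    have h8 : (((∏ l ∈ q \ S, (1 + dg K M l / nm l) : ℝ)) : ℂ) ≠ 0 := by
      exact_mod_cast h7.ne'
    have h9 : L q = (x : ℂ) / ((∏ l ∈ q \ S, (1 + dg K M l / nm l) : ℝ) : ℂ) :=
      eq_div_of_mul_eq h8 h5
    rw [h9, Finset.prod_inv_distrib, ← div_eq_mul_inv]
    push_cast
    rfl
  have hcS : 1 ≤ c ^ S.card := one_le_pow₀ hc
  have hXX : 1 ≤ C₂ * c ^ S.card * D :=
    one_le_mul_of_one_le_of_one_le (one_le_mul_of_one_le_of_one_le hC₂ hcS) hD1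
  refine ⟨x * κ, max (C₂ * c ^ S.card * D) c, δ, mul_pos hx0 hκ, le_trans hc (le_max_right _ _),
    hδ, hδ1, fun q Y hY => ?_⟩
  have h3 := hL3 q Y hY
  have h4 : ((∑ s ∈ (prK K).SF Y, pd (off (S ∪ q) (dg K M)) s : ℝ) : ℂ) - L q * κ * Y =
      ((∑ s ∈ (prK K).SF Y, pd (off (S ∪ q) (dg K M)) s -
        x * κ * (∏ l ∈ q \ S, (1 + dg K M l / nm l)⁻¹) * Y : ℝ) : ℂ) := by
    rw [hLq q]
    push_cast
    ring
  rw [h4, Complex.norm_real, Real.norm_eq_abs] at h3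
  refine h3.trans (mul_le_mul_of_nonneg_right ?_ (Real.rpow_nonneg (by linarith) _))
  have h5 : c ^ (S ∪ q).card ≤ c ^ S.card * c ^ q.card := by
    rw [← pow_add]
    exact pow_le_pow_right₀ hc (Finset.card_union_le _ _)
  calc C₂ * c ^ (S ∪ q).card * D ≤ C₂ * (c ^ S.card * c ^ q.card) * D := by gcongr
    _ = (C₂ * c ^ S.card * D) * c ^ q.card := by ring
    _ ≤ _ := mul_le_mul (le_max_left _ _) (pow_le_pow_left₀ (by linarith) (le_max_right _ _) _)
      (by positivity) (by linarith [le_max_left (C₂ * c ^ S.card * D) c])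

end H77.AQ
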