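import Pool.Agent.H77.AQ.Exa
import Pool.Agent.H77.AQ.Mna
import Pool.Agent.H57.SL.Bdn

/-!
# H77 AQ EXM: expansion and analysis of chapter M3

`M / K` any extension of degree at most 9, `B l` the primes of degree one of `M` over `l` (`l ∉ S`), `qv v` the class vector of `v`, `cl l v` the symbol of
`v` at `l`. Hypothesis (RAY): the nontrivial combinations are nontrivial ray class characters of `M` with conductor polynomial in `nr q`.
-/

set_option autoImplicit false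

open scoped NumberField nonZeroDivisors Classical
open IsDedekindDomain H63.MA NumberField H1.LS4 H36.QA H57.LI H57.LC H57.SL Filter Topology

noncomputable section

namespace H77.AQ

variable (K M : Type) [Field K] [NumberField K] [Field M] [NumberField M] [Algebra K M]

private theorem fin_ov2 (l : Pl K) : {w : Pl M | Over w l ∧ nm w = nm l}.Finite := by
  rw [← bel_set]
  exact (bel_card (K := K) (E := M) l).1.subset fun w hw => hw.1

theorem dg_le (hM : Module.finrank K M ≤ 9) (l : Pl K) : dg K M l ≤ 9 := by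
  unfold dg
  have h3 : {w : Pl M | Over w l ∧ nm w = nm l}.ncard ≤ Module.finrank K M := by
    rw [Set.ncard_eq_toFinset_card _ (fin_ov2 K M l)]
    refine H57.AN.fib K l _ fun w hw => ?_
    exact below_unique (H57.AN.dn_over K w) ((fin_ov2 K M l).mem_toFinset.1 hw).1
  exact_mod_cast h3.trans hM

theorem dg_nn (l : Pl K) : 0 ≤ dg K M l := Nat.cast_nonneg _

variable {K M}

theorem dg_card {l : Pl K} {B : Finset (Pl M)} (hB : ∀ v, v ∈ B ↔ Over v l ∧ nm v = nm l) :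
    (B.card : ℝ) = dg K M l := by
  unfold dg
  rw [← Set.ncard_coe_finset]
  congr 2
  ext v
  exact hB v

private theorem sf_emp (p : Pr (Pl K)) {x : ℝ} (hx : x < 1) : p.SF x = ∅ := by
  rw [Finset.eq_empty_iff_forall_notMem]
  intro s hs
  have h1 := p.one_le_nn s
  have h2 := p.mem_SF.1 hs
  linarith

private theorem pr_bd {g : Pl K → ℂ} {c : ℝ} (hg : ∀ l, ‖g l‖ ≤ c) (hc : 1 ≤ c) {t q : Finset (Pl K)}
    (ht : t ⊆ q) : ‖∏ l ∈ t, g l‖ ≤ c ^ q.card := by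
  rw [norm_prod]
  calc ∏ l ∈ t, ‖g l‖ ≤ ∏ l ∈ t, c := Finset.prod_le_prod (fun _ _ => norm_nonneg _) fun l _ => hg l
    _ = c ^ t.card := Finset.prod_const _
    _ ≤ c ^ q.card := pow_le_pow_right₀ hc (Finset.card_le_card ht)

variable (K M)

/-- expansion and analysis -/
theorem exm (hM : Module.finrank K M ≤ 9) (S : Finset (Pl K)) {r : ℕ} (B : Pl K → Finset (Pl M))
    (hB : ∀ l, l ∉ S → ∀ v, v ∈ B l ↔ Over v l ∧ nm v = nm l) (hBS : ∀ l ∈ S, B l = ∅)
    (qv : Pl M → Fin r → ZMod 3) (cl : Pl K → Pl M → ZMod 3)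
    (hray : ∃ (C₀ : ℝ) (A₀ : ℕ), 1 ≤ C₀ ∧ ∀ q : Finset (Pl K), (∀ l ∈ q, l ∉ S) →
      ∀ (k : Fin r → ZMod 3) (c : Pl K → ZMod 3), (∀ l, l ∉ q → c l = 0) → (k ≠ 0 ∨ c ≠ 0) →
      ∃ 𝔣 : Ideal (𝓞 M), 𝔣 ≠ ⊥ ∧ (Ideal.absNorm 𝔣 : ℝ) ≤ C₀ * nr q ^ A₀ ∧ ∃ ψ : RC M 𝔣, ψ.Non ∧
        ∀ l, l ∉ S → l ∉ q → ∀ v ∈ B l,
          ψ.χ v.asIdeal = ep 3 (dt k (qv v) + ∑ l' ∈ q, c l' * cl l' v)) :
    ∃ (κ C : ℝ) (A : ℕ) (δ : ℝ), 0 < κ ∧ 1 ≤ C ∧ 0 < δ ∧ δ ≤ 1 / 4 ∧
      ∀ (cls : Fin r → ZMod 3) (q : Finset (Pl K)), (∀ l ∈ q, l ∉ S) →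
      ∀ (b : Pl K → ZMod 3) (R : ℝ), 1 ≤ R → ∀ AA : Finset (Finset (Pl M)),
      (∀ a, a ∈ AA ↔ Tr (bel K) B a ∧ nr a ≤ R) →
      ‖∑ a ∈ AA.filter (fun a => ∑ v ∈ a, qv v = cls),
        ∏ l ∈ q, (if l ∈ a.image (bel K) then (-1 : ℂ) else
          ep 3 (b l + ∑ v ∈ a, cl l v) + ep 3 (-(b l + ∑ v ∈ a, cl l v))) -
        ((κ * R * ∏ l ∈ q, (-(dg K M l) / (nm l + dg K M l)) : ℝ) : ℂ)‖ ≤
        C * nr q ^ A * R ^ (1 - δ) := by
  obtain ⟨C₀, A₀, hC₀, hray⟩ := hray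
  obtain ⟨C₁, A₁, δ₁, hC₁, hδ₁, hδ₁', h1⟩ := asc K M
  obtain ⟨κ, C₂, δ₂, hκ, hC₂, hδ₂, hδ₂', h2⟩ := mna K M hM S
  obtain ⟨C₃, hC₃⟩ : ∃ C₃, C₃ = max C₂ κ := ⟨_, rfl⟩
  have hC₃1 : 1 ≤ C₃ := by rw [hC₃]; exact hC₂.trans (le_max_left _ _)
  obtain ⟨D, hD⟩ : ∃ D, D = max (9 * C₃) (27 * C₁) := ⟨_, rfl⟩
  obtain ⟨A₃, hA₃⟩ := cpw K D
  obtain ⟨δ, hδ⟩ : ∃ δ, δ = min δ₁ δ₂ := ⟨_, rfl⟩
  have hδ0 : 0 < δ := by rw [hδ]; exact lt_min hδ₁ hδ₂
  have hδ1 : δ ≤ δ₁ := by rw [hδ]; exact min_le_left _ _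
  have hδ2 : δ ≤ δ₂ := by rw [hδ]; exact min_le_right _ _
  have hN0 : ∀ l : Pl K, (0 : ℝ) < nm l := fun l => by
    have := (prK K).two_le l
    rw [prK_N] at this
    linarith
  obtain ⟨C₄, hC₄⟩ : ∃ C₄, C₄ = C₁ * C₁ ^ S.card * C₀ ^ A₁ := ⟨_, rfl⟩
  have hC₄1 : 1 ≤ C₄ := by
    rw [hC₄]
    exact one_le_mul_of_one_le_of_one_le
      (one_le_mul_of_one_le_of_one_le hC₁ (one_le_pow₀ hC₁)) (one_le_pow₀ hC₀)
  refine ⟨((3 : ℝ) ^ r)⁻¹ * κ, C₃ + C₄, A₃ + A₀ * A₁, δ, by positivity, by linarith, hδ0,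
    hδ1.trans hδ₁', fun cls q hqS b R hR AA hAA => ?_⟩
  have hR0 : 0 < R := by linarith
  -- the exact formula
  have hbel : ∀ l, ∀ v ∈ B l, bel K v = l := by
    intro l v hv
    by_cases hl : l ∈ S
    · rw [hBS l hl] at hv
      exact absurd hv (Finset.notMem_empty v)
    · exact bel_iff.2 ((hB l hl v).1 hv).1
  have hA' : ∀ a, a ∈ AA ↔ Tr (bel K) B a ∧ a.image (bel K) ∈ (prK K).SF R := by
    intro a
    rw [hAA, (prK K).mem_SF]
    refine and_congr_right fun h3 => ?_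
    have h4 : (prK K).nn (a.image (bel K)) = nr a := by
      unfold Pr.nn nr
      rw [Finset.prod_image h3.2]
      refine Finset.prod_congr rfl fun v hv => ?_
      have h5 := h3.1 v hv
      have h6 : bel K v ∉ S := by
        intro h7
        rw [hBS _ h7] at h5
        exact absurd h5 (Finset.notMem_empty v)
      rw [prK_N, ((hB _ h6 v).1 h5).2]
    rw [h4]
  rw [ex_sum (bel K) B hbel (prK K) R AA hA' q qv cl b cls]
  -- the bound of one local factor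
  obtain ⟨g, hg⟩ : ∃ g : (Fin r → ZMod 3) → (q → ZMod 3) → Pl K → ℂ, ∀ k c l, g k c l =
      ∑ v ∈ B l, ep 3 (dt k (qv v) + ∑ x : q, c x * cl x v) := ⟨_, fun _ _ _ => rfl⟩
  have hcard : ∀ l, ((B l).card : ℝ) ≤ 9 := by
    intro l
    by_cases hl : l ∈ S
    · rw [hBS l hl]
      simp
    · rw [dg_card (hB l hl)]
      exact dg_le K M hM l
  have hgb : ∀ k c l, ‖g k c l‖ ≤ 9 := by
    intro k c l
    rw [hg]
    refine (norm_sum_le _ _).trans ?_
    simp only [ep_norm]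
    rw [Finset.sum_const, nsmul_eq_mul, mul_one]
    exact hcard l
  obtain ⟨T, hT⟩ : ∃ T : (Fin r → ZMod 3) → (q → ZMod 3) → ℂ, ∀ k c, T k c =
      ep 3 (-(dt k cls)) * (sgc c * ep 3 (∑ x : q, c x * b x)) *
        ((∏ l ∈ zc c, g k c l) * ∑ s ∈ (prK K).SF (R / (prK K).nn (zc c)),
          ∏ l ∈ s, (if l ∈ q then 0 else g k c l)) := ⟨_, fun _ _ => rfl⟩
  have hsum : ∑ k : Fin r → ZMod 3, ∑ c : q → ZMod 3,
      ep 3 (-(dt k cls)) * (sgc c * ep 3 (∑ x : q, c x * b x)) *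
        ((∏ l ∈ zc c, ∑ v ∈ B l, ep 3 (dt k (qv v) + ∑ x : q, c x * cl x v)) *
          ∑ s ∈ (prK K).SF (R / (prK K).nn (zc c)), ∏ l ∈ s, (if l ∈ q then 0 else
            ∑ v ∈ B l, ep 3 (dt k (qv v) + ∑ x : q, c x * cl x v))) =
      ∑ k : Fin r → ZMod 3, ∑ c : q → ZMod 3, T k c := by
    refine Finset.sum_congr rfl fun k _ => Finset.sum_congr rfl fun c _ => ?_
    rw [hT]
    simp only [hg]
  rw [hsum]
  have hR1 : 1 ≤ R ^ (1 - δ) := Real.one_le_rpow hR (by linarith [hδ1.trans hδ₁'])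
  have hRR : ∀ (x δ' : ℝ), 1 ≤ x → x ≤ R → δ ≤ δ' → δ' ≤ 1 / 4 → x ^ (1 - δ') ≤ R ^ (1 - δ) := by
    intro x δ' hx hxR hd hd'
    calc x ^ (1 - δ') ≤ R ^ (1 - δ') := Real.rpow_le_rpow (by linarith) hxR (by linarith)
      _ ≤ R ^ (1 - δ) := Real.rpow_le_rpow_of_exponent_le hR (by linarith)
  have hdiv : ∀ t : Finset (Pl K), R / (prK K).nn t ≤ R := fun t =>
    div_le_self hR0.le ((prK K).one_le_nn t)
  have hun : ∀ k c, ‖ep 3 (-(dt k cls)) * (sgc c * ep 3 (∑ x : q, c x * b x))‖ = 1 := by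
    intro k c
    rw [norm_mul, norm_mul, ep_norm, ep_norm, sgc_norm, mul_one, mul_one]
  have hnr1 : (1 : ℝ) ≤ nr q := one_le_nr q
  -- nontrivial terms
  obtain ⟨E, hE⟩ : ∃ E : ℝ, E = 9 ^ q.card * (C₄ * C₁ ^ q.card * nr q ^ (A₀ * A₁)) *
      R ^ (1 - δ) := ⟨_, rfl⟩
  have hE0 : 0 ≤ E := by
    rw [hE]
    positivity
  have hnt : ∀ (k : Fin r → ZMod 3) (c : q → ZMod 3), (k ≠ 0 ∨ c ≠ 0) → ‖T k c‖ ≤ E := by
    intro k c hkc
    rw [hT, norm_mul, hun, one_mul]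
    by_cases hx : R / (prK K).nn (zc c) < 1
    · rw [sf_emp _ hx, Finset.sum_empty, mul_zero, norm_zero]
      exact hE0
    · push Not at hx
      obtain ⟨ce, hce⟩ : ∃ ce : Pl K → ZMod 3, ∀ l, ce l = if h : l ∈ q then c ⟨l, h⟩ else 0 :=
        ⟨_, fun _ => rfl⟩
      have hce1 : ∀ x : q, ce x = c x := by
        intro x
        rw [hce, dif_pos x.2]
      obtain ⟨𝔣, h𝔣, hn𝔣, ψ, hψ, hψv⟩ := hray q hqS k ce (fun l hl => by rw [hce, dif_neg hl])
        (by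
          rcases hkc with h | h
          · exact Or.inl h
          · right
            intro h3
            apply h
            funext x
            rw [← hce1 x, h3]
            rfl)
      have hsc : ∀ v, ∑ l' ∈ q, ce l' * cl l' v = ∑ x : q, c x * cl x v := by
        intro v
        rw [← Finset.sum_coe_sort q]
        exact Finset.sum_congr rfl fun x _ => by rw [hce1]
      have h3 := h1 𝔣 h𝔣 ψ hψ (fun l => if l ∈ q then 0 else g k c l) (fun l => by
        split_ifs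
        · simp
        · exact hgb k c l) (S ∪ q) (fun l hl _ => by
        rw [Finset.mem_union, not_or] at hl
        rw [if_neg hl.2, hg]
        have h4 : {w : Pl M | Over w l ∧ nm w = nm l} = (B l : Set (Pl M)) := by
          ext v
          exact (hB l hl.1 v).symm
        unfold d1
        rw [h4, finsum_mem_coe_finset]
        refine Finset.sum_congr rfl fun v hv => ?_
        rw [hψv l hl.1 hl.2 v hv, hsc]) _ hx
      rw [norm_mul]
      have h5 := pr_bd (hgb k c) (by norm_num) (zc_sub c)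
      have h6 : (Ideal.absNorm 𝔣 : ℝ) ^ A₁ ≤ C₀ ^ A₁ * nr q ^ (A₀ * A₁) := by
        refine (pow_le_pow_left₀ (Nat.cast_nonneg _) hn𝔣 _).trans ?_
        rw [mul_pow, ← pow_mul]
      have h7 : C₁ ^ (S ∪ q).card ≤ C₁ ^ S.card * C₁ ^ q.card := by
        rw [← pow_add]
        exact pow_le_pow_right₀ hC₁ (Finset.card_union_le _ _)
      have h8 := hRR _ δ₁ hx (hdiv _) hδ1 hδ₁'
      have h9 : C₁ * C₁ ^ (S ∪ q).card * (Ideal.absNorm 𝔣 : ℝ) ^ A₁ *
          (R / (prK K).nn (zc c)) ^ (1 - δ₁) ≤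
          C₁ * (C₁ ^ S.card * C₁ ^ q.card) * (C₀ ^ A₁ * nr q ^ (A₀ * A₁)) * R ^ (1 - δ) := by
        gcongr
      have h10 := mul_le_mul h5 (h3.trans h9) (norm_nonneg _) (by positivity)
      refine h10.trans (le_of_eq ?_)
      rw [hE, hC₄]
      ring
  -- the trivial term
  have htr : ‖T 0 0 - ((κ * R * ∏ l ∈ q, (-(dg K M l) / (nm l + dg K M l)) : ℝ) : ℂ)‖ ≤
      9 ^ q.card * (C₃ * C₃ ^ q.card) * R ^ (1 - δ) := by
    obtain ⟨x, hx⟩ : ∃ x : ℝ, x = R / (prK K).nn q := ⟨_, rfl⟩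
    have hz : zc (0 : q → ZMod 3) = q := by
      ext l
      constructor
      · exact fun h => zc_sub _ h
      · exact fun h => (mem_zc 0 ⟨l, h⟩).2 rfl
    have hg0 : ∀ l, l ∉ S → g 0 0 l = ((dg K M l : ℝ) : ℂ) := by
      intro l hl
      rw [hg, ← dg_card (hB l hl)]
      have h3 : ∀ v, dt (0 : Fin r → ZMod 3) (qv v) = 0 := by
        intro v
        unfold dt
        simp
      simp [h3, ep_zero]
    have hgS : ∀ l, l ∈ S → g 0 0 l = 0 := by
      intro l hl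
      rw [hg, hBS l hl, Finset.sum_empty]
    have hs0 : sgc (0 : q → ZMod 3) = ∏ l ∈ q, (-1 : ℂ) := by
      unfold sgc
      rw [← Finset.prod_coe_sort q]
      exact Finset.prod_congr rfl fun x _ => if_pos rfl
    have h3 : T 0 0 = (((∏ l ∈ q, -(dg K M l)) *
        ∑ s ∈ (prK K).SF x, pd (off (S ∪ q) (dg K M)) s : ℝ) : ℂ) := by
      rw [hT, hz, hs0, ← hx]
      have h4 : dt (0 : Fin r → ZMod 3) cls = 0 := by
        unfold dt
        simp
      have h5 : ∑ x : q, (0 : q → ZMod 3) x * b x = 0 := by simp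
      rw [h4, h5, neg_zero, ep_zero, one_mul, mul_one, ← mul_assoc, ← Finset.prod_mul_distrib]
      push_cast
      congr 1
      · refine Finset.prod_congr rfl fun l hl => ?_
        rw [hg0 l (hqS l hl)]
        ring
      · refine Finset.sum_congr rfl fun s _ => ?_
        unfold pd
        push_cast
        refine Finset.prod_congr rfl fun l _ => ?_
        unfold off
        by_cases h6 : l ∈ q
        · rw [if_pos h6, if_pos (Finset.mem_union_right _ h6), Complex.ofReal_zero]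
        · rw [if_neg h6]
          by_cases h7 : l ∈ S
          · rw [if_pos (Finset.mem_union_left _ h7), hgS l h7, Complex.ofReal_zero]
          · rw [if_neg (by simp [h6, h7]), hg0 l h7]
    have h4 : (∏ l ∈ q, (-(dg K M l) / (nm l + dg K M l)) : ℝ) =
        (∏ l ∈ q, -(dg K M l)) * ((∏ l ∈ q \ S, (1 + dg K M l / nm l)⁻¹) *
          ((prK K).nn q)⁻¹) := by
      have h5 : q \ S = q := Finset.sdiff_eq_self_of_disjoint
        (Finset.disjoint_left.2 hqS)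
      rw [h5]
      unfold Pr.nn
      rw [← Finset.prod_inv_distrib, ← Finset.prod_mul_distrib, ← Finset.prod_mul_distrib]
      refine Finset.prod_congr rfl fun l _ => ?_
      have h6 := hN0 l
      have h7 := dg_nn K M l
      rw [prK_N]
      have h8 : (nm l : ℝ) + dg K M l ≠ 0 := by positivity
      have h9 : (1 : ℝ) + dg K M l / nm l ≠ 0 := by positivity
      field_simp
    have h5 : T 0 0 - ((κ * R * ∏ l ∈ q, (-(dg K M l) / (nm l + dg K M l)) : ℝ) : ℂ) =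
        (((∏ l ∈ q, -(dg K M l)) * (∑ s ∈ (prK K).SF x, pd (off (S ∪ q) (dg K M)) s -
          κ * (∏ l ∈ q \ S, (1 + dg K M l / nm l)⁻¹) * x) : ℝ) : ℂ) := by
      rw [h3, h4, ← Complex.ofReal_sub, hx, div_eq_mul_inv]
      congr 1
      ring
    rw [h5, Complex.norm_real, norm_mul]
    have h6 : ‖∏ l ∈ q, -(dg K M l)‖ ≤ 9 ^ q.card := by
      rw [norm_prod, ← Finset.prod_const]
      refine Finset.prod_le_prod (fun _ _ => norm_nonneg _) fun l _ => ?_
      rw [norm_neg, Real.norm_of_nonneg (dg_nn K M l)]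
      exact dg_le K M hM l
    have h7 : ‖∑ s ∈ (prK K).SF x, pd (off (S ∪ q) (dg K M)) s -
          κ * (∏ l ∈ q \ S, (1 + dg K M l / nm l)⁻¹) * x‖ ≤
          C₃ * C₃ ^ q.card * R ^ (1 - δ) := by
      by_cases hx1 : x < 1
      · rw [sf_emp _ hx1, Finset.sum_empty, zero_sub, norm_neg]
        have hx0 : 0 ≤ x := by
          rw [hx]
          exact div_nonneg hR0.le ((prK K).nn_pos q).le
        have h8 : 0 ≤ ∏ l ∈ q \ S, (1 + dg K M l / nm l)⁻¹ := by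
          refine Finset.prod_nonneg fun l _ => ?_
          have h9 := hN0 l
          have h10 := dg_nn K M l
          positivity
        have h9 : ∏ l ∈ q \ S, (1 + dg K M l / nm l)⁻¹ ≤ 1 := by
          refine Finset.prod_le_one (fun l _ => ?_) fun l _ => ?_
          · have h9 := hN0 l
            have h10 := dg_nn K M l
            positivity
          · have h9 := hN0 l
            have h10 := dg_nn K M l
            have h11 : 0 ≤ dg K M l / nm l := by positivity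
            exact inv_le_one_of_one_le₀ (by linarith)
        rw [Real.norm_of_nonneg (by positivity)]
        have h10 : κ ≤ C₃ := by rw [hC₃]; exact le_max_right _ _
        have h11 : 1 ≤ C₃ ^ q.card := one_le_pow₀ hC₃1
        calc κ * (∏ l ∈ q \ S, (1 + dg K M l / nm l)⁻¹) * x ≤ κ * 1 * 1 := by gcongr
          _ ≤ C₃ * C₃ ^ q.card * R ^ (1 - δ) := by
            have h12 : 0 ≤ C₃ := by linarith
            exact mul_le_mul (mul_le_mul h10 h11 zero_le_one h12) hR1 zero_le_one (by positivity)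
      · push Not at hx1
        rw [Real.norm_eq_abs]
        refine (h2 q x hx1).trans ?_
        have h8 := hRR x δ₂ hx1 (by rw [hx]; exact hdiv q) hδ2 hδ₂'
        have h9 : C₂ ≤ C₃ := by rw [hC₃]; exact le_max_left _ _
        have h10 : C₂ ^ q.card ≤ C₃ ^ q.card := pow_le_pow_left₀ (by linarith) h9 _
        have h11 : 0 ≤ C₃ := by linarith
        exact mul_le_mul (mul_le_mul h9 h10 (by positivity) h11) h8
          (Real.rpow_nonneg (by linarith) _) (by positivity)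
    refine (mul_le_mul h6 h7 (norm_nonneg _) (by positivity)).trans (le_of_eq ?_)
    ring
  -- assembly
  obtain ⟨m, hm⟩ : ∃ m : ℝ, m = κ * R * ∏ l ∈ q, (-(dg K M l) / (nm l + dg K M l)) := ⟨_, rfl⟩
  rw [← hm] at htr
  have hm2 : ((((3 : ℝ) ^ r)⁻¹ * κ * R * ∏ l ∈ q, (-(dg K M l) / (nm l + dg K M l)) : ℝ) : ℂ) =
      ((3 : ℂ) ^ r)⁻¹ * (m : ℂ) := by
    rw [hm]
    push_cast
    ring
  rw [hm2, ← mul_sub, norm_mul]
  have h3r : ‖((3 : ℂ) ^ r)⁻¹‖ = ((3 : ℝ) ^ r)⁻¹ := by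
    rw [norm_inv, norm_pow]
    norm_num
  rw [h3r]
  have hcnt : ∑ k : Fin r → ZMod 3, ∑ c : q → ZMod 3, T k c - (m : ℂ) =
      (T 0 0 - (m : ℂ)) + ∑ kc ∈ (Finset.univ : Finset ((Fin r → ZMod 3) × (q → ZMod 3))).erase
        (0, 0), T kc.1 kc.2 := by
    have h4 : ∑ k : Fin r → ZMod 3, ∑ c : q → ZMod 3, T k c =
        ∑ kc : (Fin r → ZMod 3) × (q → ZMod 3), T kc.1 kc.2 :=
      (Fintype.sum_prod_type' T).symm
    rw [h4, ← Finset.add_sum_erase Finset.univ (fun kc : (Fin r → ZMod 3) × (q → ZMod 3) =>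
      T kc.1 kc.2) (Finset.mem_univ (0, 0))]
    ring
  rw [hcnt]
  have hb1 : ‖∑ kc ∈ (Finset.univ : Finset ((Fin r → ZMod 3) × (q → ZMod 3))).erase
        (0, 0), T kc.1 kc.2‖ ≤ (3 : ℝ) ^ r * 3 ^ q.card * E := by
    refine (norm_sum_le _ _).trans ?_
    have h4 : ∑ kc ∈ (Finset.univ : Finset ((Fin r → ZMod 3) × (q → ZMod 3))).erase
        (0, 0), ‖T kc.1 kc.2‖ ≤ ∑ kc ∈ (Finset.univ : Finset ((Fin r → ZMod 3) ×
          (q → ZMod 3))).erase (0, 0), E := by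
      refine Finset.sum_le_sum fun kc hkc => hnt _ _ ?_
      by_contra h5
      push Not at h5
      exact (Finset.mem_erase.1 hkc).1 (Prod.ext h5.1 h5.2)
    refine h4.trans ?_
    rw [Finset.sum_const, nsmul_eq_mul]
    refine mul_le_mul_of_nonneg_right ?_ hE0
    have h5 : ((Finset.univ : Finset ((Fin r → ZMod 3) × (q → ZMod 3))).erase (0, 0)).card ≤
        (Finset.univ : Finset ((Fin r → ZMod 3) × (q → ZMod 3))).card :=
      Finset.card_le_card (Finset.erase_subset _ _)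
    have h6 : (Finset.univ : Finset ((Fin r → ZMod 3) × (q → ZMod 3))).card =
        3 ^ r * 3 ^ q.card := by
      rw [Finset.card_univ, Fintype.card_prod, Fintype.card_fun, Fintype.card_fun, ZMod.card,
        Fintype.card_fin, Fintype.card_coe]
    rw [h6] at h5
    exact_mod_cast h5
  have hfin := (norm_add_le _ _).trans (add_le_add htr hb1)
  have h3r1 : ((3 : ℝ) ^ r)⁻¹ ≤ 1 := inv_le_one_of_one_le₀ (one_le_pow₀ (by norm_num))
  have hDq := hA₃ q
  have hD9 : (9 * C₃) ^ q.card ≤ nr q ^ A₃ := by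
    refine le_trans (pow_le_pow_left₀ (by linarith) ?_ _) hDq
    rw [hD]
    exact le_max_left _ _
  have hD27 : (27 * C₁) ^ q.card ≤ nr q ^ A₃ := by
    refine le_trans (pow_le_pow_left₀ (by linarith) ?_ _) hDq
    rw [hD]
    exact le_max_right _ _
  have hRp : 0 ≤ R ^ (1 - δ) := by linarith
  have hnA : 1 ≤ nr q ^ (A₀ * A₁) := one_le_pow₀ hnr1
  calc ((3 : ℝ) ^ r)⁻¹ * ‖(T 0 0 - (m : ℂ)) + ∑ kc ∈ (Finset.univ : Finset ((Fin r → ZMod 3) ×
        (q → ZMod 3))).erase (0, 0), T kc.1 kc.2‖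
      ≤ ((3 : ℝ) ^ r)⁻¹ * (9 ^ q.card * (C₃ * C₃ ^ q.card) * R ^ (1 - δ) +
        (3 : ℝ) ^ r * 3 ^ q.card * E) := by
        exact mul_le_mul_of_nonneg_left hfin (by positivity)
    _ = ((3 : ℝ) ^ r)⁻¹ * (C₃ * (9 * C₃) ^ q.card * R ^ (1 - δ)) + 3 ^ q.card * E := by
        have h4 : ((3 : ℝ) ^ r)⁻¹ * (3 : ℝ) ^ r = 1 := inv_mul_cancel₀ (by positivity)
        rw [mul_add, ← mul_assoc (((3 : ℝ) ^ r)⁻¹) ((3 : ℝ) ^ r * 3 ^ q.card) E,
          ← mul_assoc (((3 : ℝ) ^ r)⁻¹) ((3 : ℝ) ^ r) (3 ^ q.card), h4, one_mul, mul_pow]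
        ring
    _ ≤ 1 * (C₃ * (nr q ^ A₃ * nr q ^ (A₀ * A₁)) * R ^ (1 - δ)) + 3 ^ q.card * E := by
        have h4 : (9 * C₃) ^ q.card ≤ nr q ^ A₃ * nr q ^ (A₀ * A₁) := by
          calc (9 * C₃) ^ q.card ≤ nr q ^ A₃ * 1 := by rw [mul_one]; exact hD9
            _ ≤ _ := by gcongr
        gcongr
    _ ≤ 1 * (C₃ * (nr q ^ A₃ * nr q ^ (A₀ * A₁)) * R ^ (1 - δ)) +
        C₄ * (nr q ^ A₃ * nr q ^ (A₀ * A₁)) * R ^ (1 - δ) := by
        have h4 : 3 ^ q.card * E = C₄ * ((27 * C₁) ^ q.card * nr q ^ (A₀ * A₁)) *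
            R ^ (1 - δ) := by
          rw [hE]
          have h5 : (27 * C₁) ^ q.card = 3 ^ q.card * (9 ^ q.card * C₁ ^ q.card) := by
            rw [← mul_pow, ← mul_pow]
            congr 1
            ring
          rw [h5]
          ring
        rw [h4]
        gcongr
    _ = (C₃ + C₄) * nr q ^ (A₃ + A₀ * A₁) * R ^ (1 - δ) := by
        rw [pow_add]
        ring

end H77.AQ
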