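import Pool.Agent.H77.AQ.Int
import Pool.Agent.H77.WE.Dcg
import Pool.Agent.H38.MT.BA
import Pool.Agent.H57.SL.Idn

/-!
# H77 AQ BAS: elementary facts for chapter LA

* `dec_fr`: if `φ` of finite type is trivial on the inertia group at `Q.P l`, it maps the decomposition group to the powers of
  `φ (fr Q l)`.
* `mu_bd`: `mu` is `2` or `-1`. `mu_ep`: `mu Q χ l = ep (χ (fr Q l)) + ep (-χ (fr Q l))` for `l` outside `S` and `rf Q S χ`.
* `ch_inv`, `ch_mul`, `rf_inv`, `rf_mul`, `cf_inv`, `one_le_cf`. `idn_mq`: `mq = FF mu`.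
-/

set_option autoImplicit false

open scoped NumberField Classical
open IsDedekindDomain H63.MA NumberField H36.QA H57.LI H57.LC H38.ML H67.AQ H57.SL

noncomputable section

namespace H77.AQ

variable {K : IntermediateField ℚ QBar} [NumberField K]

private theorem fr_P (Q : DP K QBar) (l : Pl K) (y : 𝓞 QBar) :
    fr Q l • y ∈ Q.P l ↔ y ∈ Q.P l := by
  have h1 := fr_spec Q l y
  have hP := Q.prime l
  have hnm : nm l ≠ 0 := by
    have := one_lt_nm l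
    omega
  constructor
  · intro h
    have h2 := (Q.P l).sub_mem h h1
    rw [sub_sub_cancel] at h2
    exact hP.mem_of_pow_mem _ h2
  · intro h
    have h2 := (Q.P l).add_mem h1 ((Q.P l).pow_mem_of_mem h (nm l) (Nat.pos_of_ne_zero hnm))
    rwa [sub_add_cancel] at h2

theorem fr_dec (Q : DP K QBar) (l : Pl K) : fr Q l ∈ dec (K := K) (Q.P l) :=
  fun x => fr_P Q l x

/-- the decomposition group of an unramified prime -/
theorem dec_fr (Q : DP K QBar) (l : Pl K) {H : Type} [Group H] (φ : Gal(QBar/K) →* H)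
    (hφ : FT φ) (hin : ∀ τ ∈ (Q.P l).inertia Gal(QBar/K), φ τ = 1) (σ : Gal(QBar/K))
    (hσ : σ ∈ dec (K := K) (Q.P l)) : ∃ k : ℕ, φ σ = φ (fr Q l) ^ k := by
  obtain ⟨E, hE, hle⟩ := hφ
  obtain ⟨M, hM⟩ : ∃ M : IntermediateField K QBar, M = IntermediateField.normalClosure K E QBar :=
    ⟨_, rfl⟩
  have hEM : E ≤ M := by
    rw [hM]
    exact IntermediateField.le_normalClosure E
  have hfd : FiniteDimensional K M := by
    rw [hM]
    infer_instance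
  have hnum : NumberField M := NumberField.of_module_finite K M
  have hnor : Normal K M := by
    rw [hM]
    infer_instance
  have hgM : IsGalois K M := { to_normal := hnor, to_isSeparable := inferInstance }
  obtain ⟨k, hk⟩ := H77.WE.dc_fr (Q.P l) (Q.prime l) (Q.under l) M σ hσ
  have hpow : ∀ (k : ℕ) (x : 𝓞 QBar), (fr Q l ^ k) • x - x ^ (nm l ^ k) ∈ Q.P l := by
    intro k
    induction k with
    | zero =>
      intro x
      rw [pow_zero, pow_zero, one_smul, pow_one, sub_self]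
      exact (Q.P l).zero_mem
    | succ k ih =>
      intro x
      have h1 : (fr Q l ^ (k + 1)) • x - x ^ (nm l ^ (k + 1)) =
          fr Q l • ((fr Q l ^ k) • x - x ^ (nm l ^ k)) +
            (fr Q l • (x ^ (nm l ^ k)) - (x ^ (nm l ^ k)) ^ nm l) := by
        rw [smul_sub, pow_succ' (fr Q l), mul_smul, ← pow_mul, ← pow_succ]
        ring
      rw [h1]
      exact (Q.P l).add_mem ((fr_P Q l _).2 (ih x)) (fr_spec Q l _)
  set ρ : Gal(QBar/K) := (fr Q l ^ k)⁻¹ * σ with hρ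
  have hin2 : ∀ x : 𝓞 M, ρ • (algebraMap (𝓞 M) (𝓞 QBar) x) - algebraMap (𝓞 M) (𝓞 QBar) x ∈
      Q.P l := by
    intro x
    set y : 𝓞 QBar := ρ • (algebraMap (𝓞 M) (𝓞 QBar) x) - algebraMap (𝓞 M) (𝓞 QBar) x with hy
    have h1 : (fr Q l ^ k) • y = σ • (algebraMap (𝓞 M) (𝓞 QBar) x) -
        (fr Q l ^ k) • (algebraMap (𝓞 M) (𝓞 QBar) x) := by
      rw [hy, smul_sub, ← mul_smul, hρ, mul_inv_cancel_left]
    have h2 : (fr Q l ^ k) • y ∈ Q.P l := by
      rw [h1]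
      have h3 := (Q.P l).sub_mem (hk x) (hpow k (algebraMap (𝓞 M) (𝓞 QBar) x))
      rwa [sub_sub_sub_cancel_right] at h3
    have h3 : y ^ (nm l ^ k) ∈ Q.P l := by
      have h4 := (Q.P l).sub_mem h2 (hpow k y)
      rwa [sub_sub_cancel] at h4
    exact (Q.prime l).mem_of_pow_mem _ h3
  set δ : Gal(M/K) := AlgEquiv.restrictNormal ρ M with hδ
  have hδρ : ∀ x : M, ((δ x : M) : QBar) = ρ (x : QBar) := fun x =>
    AlgEquiv.restrictNormal_commutes ρ M x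
  obtain ⟨τ, hτ, hτM⟩ := CDa_lift M (Q.P l) (Q.prime l) δ (by
    intro x
    rw [Ideal.mem_comap, map_sub]
    have h1 : algebraMap (𝓞 M) (𝓞 QBar) (δ • x) = ρ • (algebraMap (𝓞 M) (𝓞 QBar) x) := by
      apply NumberField.RingOfIntegers.ext
      exact hδρ x
    rw [h1]
    exact hin2 x)
  have hφτ : φ τ = φ ρ := by
    have h1 : τ⁻¹ * ρ ∈ E.fixingSubgroup := by
      rw [IntermediateField.mem_fixingSubgroup_iff]
      intro x hx
      have h2 : ρ x = τ x := by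
        rw [← hδρ ⟨x, hEM hx⟩, ← hτM ⟨x, hEM hx⟩]
      rw [AlgEquiv.mul_apply, h2]
      exact AlgEquiv.symm_apply_apply τ x
    have h2 := MonoidHom.mem_ker.1 (hle h1)
    rw [map_mul, map_inv] at h2
    exact inv_mul_eq_one.1 h2
  refine ⟨k, ?_⟩
  have h5 : φ ρ = 1 := by rw [← hφτ, hin τ hτ]
  rw [hρ, map_mul, map_inv, map_pow, inv_mul_eq_one] at h5
  exact h5.symm

theorem spt_fr (Q : DP K QBar) {S : Finset (Pl K)} {χ : Gal(QBar/K) →* Multiplicative (ZMod 3)}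
    (hχ : FT χ) {l : Pl K} (hS : l ∉ S) (hl : l ∉ H38.MT.rf Q S χ) :
    H38.MT.Spt Q χ l ↔ χ (fr Q l) = 1 := by
  constructor
  · intro h
    exact h _ (fr_dec Q l)
  · intro h σ hσ
    have hin : ∀ τ ∈ (Q.P l).inertia Gal(QBar/K), χ τ = 1 := by
      intro τ hτ
      by_contra h1
      exact hl ((H38.MT.ba_mem Q S hχ l).2 ⟨hS, τ, hτ, h1⟩)
    obtain ⟨k, hk⟩ := dec_fr Q l χ hχ hin σ hσ
    rw [hk, h, one_pow]

theorem mu_bd (Q : DP K QBar) (χ : Gal(QBar/K) →* Multiplicative (ZMod 3)) (l : Pl K) :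
    |mu Q χ l| ≤ 2 ∧ -1 ≤ mu Q χ l ∧ 0 ≤ mu Q χ l + 1 ∧ mu Q χ l + 1 ≤ 3 := by
  unfold mu
  split_ifs <;> norm_num

theorem mu_ep (Q : DP K QBar) {S : Finset (Pl K)} {χ : Gal(QBar/K) →* Multiplicative (ZMod 3)}
    (hχ : FT χ) {l : Pl K} (hS : l ∉ S) (hl : l ∉ H38.MT.rf Q S χ) :
    ((mu Q χ l : ℝ) : ℂ) = ep 3 (Multiplicative.toAdd (χ (fr Q l))) +
      ep 3 (-Multiplicative.toAdd (χ (fr Q l))) := by
  unfold mu
  rw [spt_fr Q hχ hS hl]
  obtain ⟨a, ha⟩ : ∃ a : ZMod 3, a = Multiplicative.toAdd (χ (fr Q l)) := ⟨_, rfl⟩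
  have h0 : χ (fr Q l) = 1 ↔ a = 0 := by
    rw [ha]
    exact Iff.rfl
  rw [h0, ← ha]
  by_cases h : a = 0
  · rw [if_pos h, h, neg_zero, ep_zero]
    push_cast
    norm_num
  · rw [if_neg h]
    have h2 := ep_sum Nat.prime_three a
    rw [if_neg h] at h2
    have h3 : ∑ b : ZMod 3, ep 3 (b * a) = ep 3 (0 * a) + ep 3 (1 * a) + ep 3 (2 * a) := by
      rw [show (Finset.univ : Finset (ZMod 3)) = {0, 1, 2} by decide]
      rw [Finset.sum_insert (by decide), Finset.sum_insert (by decide), Finset.sum_singleton]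
      ring
    have h4 : (2 : ZMod 3) * a = - a := by
      have h5 : ∀ x : ZMod 3, 2 * x = - x := by decide
      exact h5 _
    rw [h3, zero_mul, one_mul, h4, ep_zero] at h2
    push_cast
    linear_combination -h2

theorem ch_ft {χ : Gal(QBar/K) →* Multiplicative (ZMod 3)} (h : χ ∈ H38.MT.Ch K) : FT χ := h.1

theorem ch_inv {χ : Gal(QBar/K) →* Multiplicative (ZMod 3)} (h : χ ∈ H38.MT.Ch K) :
    χ⁻¹ ∈ H38.MT.Ch K := by
  rw [H38.MT.ba_ch] at h ⊢
  obtain ⟨⟨E, hE, hle⟩, h2⟩ := h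
  refine ⟨⟨E, hE, fun σ hσ => ?_⟩, inv_ne_one.2 h2⟩
  rw [MonoidHom.mem_ker, MonoidHom.inv_apply, MonoidHom.mem_ker.1 (hle hσ), inv_one]

theorem ch_mul {χ χ' : Gal(QBar/K) →* Multiplicative (ZMod 3)} (h : χ ∈ H38.MT.Ch K)
    (h' : χ' ∈ H38.MT.Ch K) (hne : χ' ≠ χ⁻¹) : χ * χ' ∈ H38.MT.Ch K := by
  rw [H38.MT.ba_ch] at h h' ⊢
  obtain ⟨⟨E, hE, hle⟩, h2⟩ := h
  obtain ⟨⟨E', hE', hle'⟩, h2'⟩ := h'
  refine ⟨⟨E ⊔ E', inferInstance, fun σ hσ => ?_⟩, fun h3 => hne ?_⟩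
  · have h4 : σ ∈ E.fixingSubgroup := IntermediateField.fixingSubgroup_le le_sup_left hσ
    have h5 : σ ∈ E'.fixingSubgroup := IntermediateField.fixingSubgroup_le le_sup_right hσ
    rw [MonoidHom.mem_ker, MonoidHom.mul_apply, MonoidHom.mem_ker.1 (hle h4),
      MonoidHom.mem_ker.1 (hle' h5), one_mul]
  · exact eq_inv_of_mul_eq_one_right h3

theorem rf_inv (Q : DP K QBar) (S : Finset (Pl K))
    {χ : Gal(QBar/K) →* Multiplicative (ZMod 3)} (h : FT χ) (h' : FT χ⁻¹) :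
    H38.MT.rf Q S χ⁻¹ = H38.MT.rf Q S χ := by
  ext l
  rw [H38.MT.ba_mem Q S h, H38.MT.ba_mem Q S h']
  simp only [MonoidHom.inv_apply, ne_eq, inv_eq_one]

theorem rf_mul (Q : DP K QBar) (S : Finset (Pl K))
    {χ χ' : Gal(QBar/K) →* Multiplicative (ZMod 3)} (h : FT χ) (h' : FT χ') (h2 : FT (χ * χ')) :
    H38.MT.rf Q S (χ * χ') ⊆ H38.MT.rf Q S χ ∪ H38.MT.rf Q S χ' := by
  intro l hl
  rw [Finset.mem_union, H38.MT.ba_mem Q S h, H38.MT.ba_mem Q S h']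
  obtain ⟨h3, σ, hσ, h4⟩ := (H38.MT.ba_mem Q S h2 l).1 hl
  by_cases h5 : χ σ = 1
  · right
    refine ⟨h3, σ, hσ, fun h6 => h4 ?_⟩
    rw [MonoidHom.mul_apply, h5, h6, one_mul]
  · exact Or.inl ⟨h3, σ, hσ, h5⟩

theorem nr_nn (B : Finset (Pl K)) : (nr B : ℝ) = (prK K).nn B := by
  unfold nr Pr.nn
  exact Finset.prod_congr rfl fun l _ => by rw [prK_N]

theorem one_le_nrB (B : Finset (Pl K)) : (1 : ℝ) ≤ nr B := by
  rw [nr_nn]
  exact (prK K).one_le_nn B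

theorem nr_un (B B' : Finset (Pl K)) : (nr (B ∪ B') : ℝ) ≤ nr B * nr B' := by
  have h : nr (B ∪ B') * nr (B ∩ B') = nr B * nr B' := by
    unfold nr
    exact Finset.prod_union_inter
  have h1 := one_le_nrB (B ∩ B')
  have h2 := one_le_nrB (B ∪ B')
  nlinarith

theorem nr_sub {B B' : Finset (Pl K)} (h : B ⊆ B') : (nr B : ℝ) ≤ nr B' := by
  have h1 : B' = B ∪ (B' \ B) := (Finset.union_sdiff_of_subset h).symm
  have h2 : nr B' = nr B * nr (B' \ B) := by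
    conv_lhs => rw [h1]
    unfold nr
    exact Finset.prod_union Finset.disjoint_sdiff
  have h3 := one_le_nrB B
  have h4 := one_le_nrB (B' \ B)
  nlinarith

theorem one_le_cf (Q : DP K QBar) (S : Finset (Pl K))
    (χ : Gal(QBar/K) →* Multiplicative (ZMod 3)) : 1 ≤ H38.MT.cf Q S χ := one_le_nrB _

theorem cf_inv (Q : DP K QBar) (S : Finset (Pl K))
    {χ : Gal(QBar/K) →* Multiplicative (ZMod 3)} (h : FT χ) (h' : FT χ⁻¹) :
    H38.MT.cf Q S χ⁻¹ = H38.MT.cf Q S χ := by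
  unfold H38.MT.cf
  rw [rf_inv Q S h h']

theorem mq_eq (Q : DP K QBar) (S : Finset (Pl K)) (χ : Gal(QBar/K) →* Multiplicative (ZMod 3))
    (Y : ℝ) : H38.MT.mq Q S χ Y = ∑ q ∈ H67.SX.AS K S Y, ∏ l ∈ q, (mu Q χ l + 1) := by
  unfold H38.MT.mq
  have h1 : ∀ q : Finset (Pl K), ∏ l ∈ q, (mu Q χ l + 1) =
      if ∀ l ∈ q, H38.MT.Spt Q χ l then (3 : ℝ) ^ q.card else 0 := by
    intro q
    split_ifs with h
    · rw [← Finset.prod_const]
      refine Finset.prod_congr rfl fun l hl => ?_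
      unfold mu
      rw [if_pos (h l hl)]
      norm_num
    · push Not at h
      obtain ⟨l, hl, h2⟩ := h
      refine Finset.prod_eq_zero hl ?_
      unfold mu
      rw [if_neg h2]
      norm_num
  simp only [h1]
  rw [← Finset.sum_filter]
  refine Finset.sum_congr ?_ fun _ _ => rfl
  ext q
  unfold H38.MT.SQ H67.SX.AS
  simp only [Finset.mem_filter]
  constructor
  · rintro ⟨h2, h3⟩
    exact ⟨⟨h2, fun l hl => (h3 l hl).1⟩, fun l hl => (h3 l hl).2⟩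
  · rintro ⟨⟨h2, h3⟩, h4⟩
    exact ⟨h2, fun l hl => ⟨h3 l hl, h4 l hl⟩⟩

theorem idn_mq (Q : DP K QBar) (S : Finset (Pl K)) (χ : Gal(QBar/K) →* Multiplicative (ZMod 3))
    (Y : ℝ) : H38.MT.mq Q S χ Y = FF S (mu Q χ) Y := by
  rw [← idn, mq_eq]
  refine Finset.sum_congr rfl fun q _ => Finset.prod_congr rfl fun l _ => ?_
  ring

end H77.AQ
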