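import Pool.Agent.H67.AQ.Defs
import Pool.Agent.H57.SL.Ast

/-!
# H77 AQ AST: the sum over the squarefree products of primes of `K` from two or four ray class characters of `K`

`K` any number field. `Gd G ψ η E D δ`: the bounds of a character on a monoid of ideals; `dbl`: product of two. `ast2`, `ast4`.
-/

set_option autoImplicit false

open scoped NumberField nonZeroDivisors Classical
open IsDedekindDomain H63.MA NumberField H36.QA H57.LI H57.LC H67.AQ H57.SL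

noncomputable section

namespace H77.AQ

/-- the bounds of a character -/
structure Gd {𝓘 π : Type} [CommMonoid 𝓘] (G : GM 𝓘 π) (ψ : 𝓘 →* ℂ) (η E D δ : ℝ) : Prop where
  nrm : ∀ I, ‖ψ I‖ ≤ 1
  cnt : G.Cnt E η
  w : ∀ M : ℝ, 1 ≤ M → ‖G.W ψ M‖ ≤ D * M ^ (1 - δ)

private theorem cnt_mono {𝓘 π : Type} [CommMonoid 𝓘] {G : GM 𝓘 π} {E η E' η' : ℝ}
    (h : G.Cnt E η) (hE : 0 ≤ E') (h1 : E ≤ E') (h2 : η ≤ η') : G.Cnt E' η' := by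
  intro m hm
  have hm1 : (1 : ℝ) ≤ m := by exact_mod_cast hm
  refine (h m hm).trans ?_
  exact mul_le_mul h1 (Real.rpow_le_rpow_of_exponent_le hm1 h2) (Real.rpow_nonneg (by linarith) _) hE

/-- the product of two -/
theorem dbl (δ η : ℝ) (hδ : 0 < δ) (hδ1 : δ ≤ 1 / 4) (hη : 0 < η) (hη2 : η ≤ δ / 2) :
    ∃ C : ℝ, 1 ≤ C ∧ ∀ (𝓘 π 𝓘' π' : Type) [CommMonoid 𝓘] [CommMonoid 𝓘']
    (G : GM 𝓘 π) (G' : GM 𝓘' π') (ψ : 𝓘 →* ℂ) (ψ' : 𝓘' →* ℂ) (E D : ℝ), 1 ≤ E → 1 ≤ D →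
    Gd G ψ η E D δ → Gd G' ψ' η E D δ →
    Gd (G.prod G') (pch ψ ψ') (2 * η) (C * E ^ 2) (C * (E * D ^ 2)) (δ / 4) := by
  obtain ⟨C₁, hC₁, h1⟩ := hyp2 δ hδ hδ1
  obtain ⟨C₂, hC₂, h2⟩ := cnt_prod η hη
  refine ⟨C₁ * C₂, one_le_mul_of_one_le_of_one_le hC₁ hC₂, ?_⟩
  intro 𝓘 π 𝓘' π' _ _ G G' ψ ψ' E D hE hD hG hG'
  have hE0 : 0 ≤ E := by linarith
  refine ⟨?_, ?_, ?_⟩
  · rintro ⟨I, J⟩
    rw [pch_apply, norm_mul]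
    exact mul_le_one₀ (hG.nrm I) (norm_nonneg _) (hG'.nrm J)
  · refine cnt_mono (h2 𝓘 π 𝓘' π' G G' E hE hG.cnt hG'.cnt) (by positivity) ?_ le_rfl
    exact mul_le_mul_of_nonneg_right (le_mul_of_one_le_left (by linarith) hC₁) (by positivity)
  · intro M hM
    refine (h1 𝓘 π 𝓘' π' G G' ψ ψ' E D hE hD hG.nrm hG'.nrm (cnt_mono hG.cnt hE0 le_rfl hη2)
      (cnt_mono hG'.cnt hE0 le_rfl hη2) hG.w hG'.w M hM).trans ?_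
    refine mul_le_mul_of_nonneg_right ?_ (Real.rpow_nonneg (by linarith) _)
    exact mul_le_mul_of_nonneg_right (le_mul_of_one_le_right (by linarith) hC₂) (by positivity)

variable (K : Type) [Field K] [NumberField K]

private theorem base (hI : ICG (Module.finrank ℚ K)) : ∃ (C : ℝ) (A : ℕ) (δ F : ℝ), 1 ≤ C ∧
    0 < δ ∧ δ ≤ 1 / 4 ∧ 1 ≤ F ∧ ∀ 𝔣 : Ideal (𝓞 K), 𝔣 ≠ ⊥ → ∀ ψ : RC K 𝔣, ψ.Non → ∀ N : ℝ,
      (Ideal.absNorm 𝔣 : ℝ) ≤ N → 1 ≤ N ∧ Gd (idG K) (rch ψ) (δ / 32) F (C * N ^ A) δ := by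
  obtain ⟨C, A, δ, hC, hδ, hδ1, h⟩ := hI
  obtain ⟨F, hF, h2⟩ := idG_cnt (Module.finrank ℚ K) Module.finrank_pos (δ / 32) (by linarith)
  have hdd : 1 ≤ dd K := one_le_dd K
  refine ⟨C * dd K ^ A, A, δ, F, one_le_mul_of_one_le_of_one_le hC (one_le_pow₀ hdd), hδ, hδ1, hF,
    ?_⟩
  intro 𝔣 h𝔣 ψ hψ N hN
  have hN1 : (1 : ℝ) ≤ Ideal.absNorm 𝔣 := by
    have h : Ideal.absNorm 𝔣 ≠ 0 := fun h => h𝔣 (Ideal.absNorm_eq_zero_iff.1 h)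
    exact_mod_cast Nat.one_le_iff_ne_zero.2 h
  refine ⟨hN1.trans hN, rch_norm ψ, h2 K rfl, fun M hM => ?_⟩
  rw [idG_W ψ M (by linarith)]
  refine (h K rfl 𝔣 h𝔣 ψ hψ M hM).trans ?_
  refine mul_le_mul_of_nonneg_right ?_ (Real.rpow_nonneg (by linarith) _)
  rw [mul_pow, ← mul_assoc]
  refine mul_le_mul_of_nonneg_left ?_ (by positivity)
  exact pow_le_pow_left₀ (by linarith) hN A

private theorem coll {C c D : ℝ} {b : ℕ} (hC : 1 ≤ C) (hc : 1 ≤ c) (hD : 0 ≤ D) :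
    C * c ^ b * D ≤ max C c * max C c ^ b * D := by
  refine mul_le_mul_of_nonneg_right ?_ hD
  exact mul_le_mul (le_max_left _ _) (pow_le_pow_left₀ (by linarith) (le_max_right _ _) _)
    (by positivity) (le_trans (by linarith) (le_max_left _ _))

/-- two characters -/
theorem ast2 (hI : ICG (Module.finrank ℚ K)) : ∃ (C : ℝ) (A : ℕ) (δ : ℝ), 1 ≤ C ∧ 0 < δ ∧
    δ ≤ 1 / 4 ∧ ∀ (𝔣₁ 𝔣₂ : Ideal (𝓞 K)), 𝔣₁ ≠ ⊥ → 𝔣₂ ≠ ⊥ → ∀ (ψ₁ : RC K 𝔣₁) (ψ₂ : RC K 𝔣₂),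
      ψ₁.Non → ψ₂.Non → ∀ N : ℝ, (Ideal.absNorm 𝔣₁ : ℝ) ≤ N → (Ideal.absNorm 𝔣₂ : ℝ) ≤ N →
      ∀ g : Pl K → ℝ, (∀ l, |g l| ≤ 9) → ∀ Bd : Finset (Pl K),
      (∀ l, l ∉ Bd → (nm l).Prime → ψ₁.χ l.asIdeal + ψ₂.χ l.asIdeal = (g l : ℂ)) →
      ∀ Y : ℝ, 1 ≤ Y →
      |∑ s ∈ (prK K).SF Y, pd g s| ≤ C * C ^ Bd.card * N ^ A * Y ^ (1 - δ) := by
  obtain ⟨C₀, A, δ, F, hC₀, hδ, hδ1, hF, h0⟩ := base K hI
  obtain ⟨C₁, hC₁, h1⟩ := dbl δ (δ / 32) hδ hδ1 (by linarith) (by linarith)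
  obtain ⟨C₂, c, hC₂, hc, h2⟩ := cmt (prK K) 2 {l | ¬ (nm l).Prime} (thn K)
  have hX : 1 ≤ C₂ * (C₁ * (F * C₀ ^ 2)) :=
    one_le_mul_of_one_le_of_one_le hC₂ (one_le_mul_of_one_le_of_one_le hC₁
      (one_le_mul_of_one_le_of_one_le hF (one_le_pow₀ hC₀)))
  refine ⟨max (C₂ * (C₁ * (F * C₀ ^ 2))) c, A * 2, δ / 4, le_trans hc (le_max_right _ _),
    by linarith, by linarith, ?_⟩
  intro 𝔣₁ 𝔣₂ hf1 hf2 ψ₁ ψ₂ hψ1 hψ2 N hN1 hN2 g hg Bd hBd Y hY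
  obtain ⟨hN, g1⟩ := h0 𝔣₁ hf1 ψ₁ hψ1 N hN1
  obtain ⟨-, g2⟩ := h0 𝔣₂ hf2 ψ₂ hψ2 N hN2
  have hD : 1 ≤ C₀ * N ^ A := one_le_mul_of_one_le_of_one_le hC₀ (one_le_pow₀ hN)
  have gg := h1 _ _ _ _ _ _ _ _ F _ hF hD g1 g2
  have h3 := h2 ((Ideal (𝓞 K))⁰ × (Ideal (𝓞 K))⁰) (Pl K ⊕ Pl K) ((idG K).prod (idG K))
    (pch (rch ψ₁) (rch ψ₂)) gg.nrm (Sum.elim id id) (fun _ => 1) (fun _ => le_rfl) ?_ ?_ g hg Bd ?_
    (C₁ * (F * (C₀ * N ^ A) ^ 2)) (δ / 4) (by linarith) (by linarith) gg.w Y hY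
  · refine h3.trans ?_
    refine mul_le_mul_of_nonneg_right ?_ (Real.rpow_nonneg (by linarith) _)
    have e : C₂ * c ^ Bd.card * (C₁ * (F * (C₀ * N ^ A) ^ 2)) =
        (C₂ * (C₁ * (F * C₀ ^ 2))) * c ^ Bd.card * N ^ (A * 2) := by
      rw [mul_pow, ← pow_mul]
      ring
    rw [e]
    exact coll hX hc (by positivity)
  · rintro (w | w)
    · have h : ((idG K).prod (idG K)).N (((idG K).prod (idG K)).pr (Sum.inl w)) =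
          (idG K).N ((idG K).pr w) * (idG K).N 1 := rfl
      rw [h, map_one, mul_one, pow_one, idG_Npr, prK_N]
      rfl
    · have h : ((idG K).prod (idG K)).N (((idG K).prod (idG K)).pr (Sum.inr w)) =
          (idG K).N 1 * (idG K).N ((idG K).pr w) := rfl
      rw [h, map_one, one_mul, pow_one, idG_Npr, prK_N]
      rfl
  · intro l
    have hs : {q : Pl K ⊕ Pl K | Sum.elim id id q = l} =
        ((({Sum.inl l, Sum.inr l} : Finset (Pl K ⊕ Pl K))) : Set (Pl K ⊕ Pl K)) := by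
      ext q
      rcases q with w | w <;> simp
    rw [hs, Set.ncard_coe_finset]
    exact ⟨Finset.finite_toSet _, Finset.card_le_two⟩
  · intro l hl hp
    have hs : {q : Pl K ⊕ Pl K | Sum.elim id id q = l ∧ 1 = 1} =
        ((({Sum.inl l, Sum.inr l} : Finset (Pl K ⊕ Pl K))) : Set (Pl K ⊕ Pl K)) := by
      ext q
      rcases q with w | w <;> simp
    rw [hs, finsum_mem_coe_finset, Finset.sum_insert (by simp), Finset.sum_singleton,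
      ← hBd l hl (not_not.1 hp)]
    congr 1
    · show rch ψ₁ ((idG K).pr l) * rch ψ₂ 1 = _
      rw [map_one, mul_one]
      rfl
    · show rch ψ₁ 1 * rch ψ₂ ((idG K).pr l) = _
      rw [map_one, one_mul]
      rfl

/-- four characters -/
theorem ast4 (hI : ICG (Module.finrank ℚ K)) : ∃ (C : ℝ) (A : ℕ) (δ : ℝ), 1 ≤ C ∧ 0 < δ ∧
    δ ≤ 1 / 4 ∧ ∀ (𝔣₁ 𝔣₂ 𝔣₃ 𝔣₄ : Ideal (𝓞 K)), 𝔣₁ ≠ ⊥ → 𝔣₂ ≠ ⊥ → 𝔣₃ ≠ ⊥ → 𝔣₄ ≠ ⊥ →
      ∀ (ψ₁ : RC K 𝔣₁) (ψ₂ : RC K 𝔣₂) (ψ₃ : RC K 𝔣₃) (ψ₄ : RC K 𝔣₄),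
      ψ₁.Non → ψ₂.Non → ψ₃.Non → ψ₄.Non → ∀ N : ℝ, (Ideal.absNorm 𝔣₁ : ℝ) ≤ N →
      (Ideal.absNorm 𝔣₂ : ℝ) ≤ N → (Ideal.absNorm 𝔣₃ : ℝ) ≤ N → (Ideal.absNorm 𝔣₄ : ℝ) ≤ N →
      ∀ g : Pl K → ℝ, (∀ l, |g l| ≤ 9) → ∀ Bd : Finset (Pl K),
      (∀ l, l ∉ Bd → (nm l).Prime → ψ₁.χ l.asIdeal + ψ₂.χ l.asIdeal +
        (ψ₃.χ l.asIdeal + ψ₄.χ l.asIdeal) = (g l : ℂ)) →
      ∀ Y : ℝ, 1 ≤ Y →
      |∑ s ∈ (prK K).SF Y, pd g s| ≤ C * C ^ Bd.card * N ^ A * Y ^ (1 - δ) := by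
  obtain ⟨C₀, A, δ, F, hC₀, hδ, hδ1, hF, h0⟩ := base K hI
  obtain ⟨C₁, hC₁, h1⟩ := dbl δ (δ / 32) hδ hδ1 (by linarith) (by linarith)
  obtain ⟨C₃, hC₃, h3⟩ := dbl (δ / 4) (2 * (δ / 32)) (by linarith) (by linarith) (by linarith)
    (by linarith)
  obtain ⟨C₂, c, hC₂, hc, h2⟩ := cmt (prK K) 4 {l | ¬ (nm l).Prime} (thn K)
  have hX : 1 ≤ C₂ * (C₃ * (C₁ * F ^ 2 * (C₁ * (F * C₀ ^ 2)) ^ 2)) :=
    one_le_mul_of_one_le_of_one_le hC₂ (one_le_mul_of_one_le_of_one_le hC₃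
      (one_le_mul_of_one_le_of_one_le (one_le_mul_of_one_le_of_one_le hC₁ (one_le_pow₀ hF))
      (one_le_pow₀ (one_le_mul_of_one_le_of_one_le hC₁
      (one_le_mul_of_one_le_of_one_le hF (one_le_pow₀ hC₀))))))
  refine ⟨max (C₂ * (C₃ * (C₁ * F ^ 2 * (C₁ * (F * C₀ ^ 2)) ^ 2))) c, A * 4, δ / 4 / 4,
    le_trans hc (le_max_right _ _), by linarith, by linarith, ?_⟩
  intro 𝔣₁ 𝔣₂ 𝔣₃ 𝔣₄ hf1 hf2 hf3 hf4 ψ₁ ψ₂ ψ₃ ψ₄ hψ1 hψ2 hψ3 hψ4 N hN1 hN2 hN3 hN4 g hg Bd hBd Y hY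
  obtain ⟨hN, g1⟩ := h0 𝔣₁ hf1 ψ₁ hψ1 N hN1
  obtain ⟨-, g2⟩ := h0 𝔣₂ hf2 ψ₂ hψ2 N hN2
  obtain ⟨-, g3⟩ := h0 𝔣₃ hf3 ψ₃ hψ3 N hN3
  obtain ⟨-, g4⟩ := h0 𝔣₄ hf4 ψ₄ hψ4 N hN4
  have hD : 1 ≤ C₀ * N ^ A := one_le_mul_of_one_le_of_one_le hC₀ (one_le_pow₀ hN)
  have gg := h1 _ _ _ _ _ _ _ _ F _ hF hD g1 g2
  have gg' := h1 _ _ _ _ _ _ _ _ F _ hF hD g3 g4
  have hE2 : 1 ≤ C₁ * F ^ 2 := one_le_mul_of_one_le_of_one_le hC₁ (one_le_pow₀ hF)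
  have hD2 : 1 ≤ C₁ * (F * (C₀ * N ^ A) ^ 2) := one_le_mul_of_one_le_of_one_le hC₁
    (one_le_mul_of_one_le_of_one_le hF (one_le_pow₀ hD))
  have gf := h3 _ _ _ _ _ _ _ _ _ _ hE2 hD2 gg gg'
  have h3 := h2 (((Ideal (𝓞 K))⁰ × (Ideal (𝓞 K))⁰) × ((Ideal (𝓞 K))⁰ × (Ideal (𝓞 K))⁰))
    ((Pl K ⊕ Pl K) ⊕ (Pl K ⊕ Pl K)) (((idG K).prod (idG K)).prod ((idG K).prod (idG K)))
    (pch (pch (rch ψ₁) (rch ψ₂)) (pch (rch ψ₃) (rch ψ₄))) gf.nrm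
    (Sum.elim (Sum.elim id id) (Sum.elim id id)) (fun _ => 1) (fun _ => le_rfl) ?_ ?_ g hg Bd ?_
    (C₃ * (C₁ * F ^ 2 * (C₁ * (F * (C₀ * N ^ A) ^ 2)) ^ 2)) (δ / 4 / 4) (by linarith)
    (by linarith) gf.w Y hY
  · refine h3.trans ?_
    refine mul_le_mul_of_nonneg_right ?_ (Real.rpow_nonneg (by linarith) _)
    have e : C₂ * c ^ Bd.card * (C₃ * (C₁ * F ^ 2 * (C₁ * (F * (C₀ * N ^ A) ^ 2)) ^ 2)) =
        (C₂ * (C₃ * (C₁ * F ^ 2 * (C₁ * (F * C₀ ^ 2)) ^ 2))) * c ^ Bd.card * N ^ (A * 4) := by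
      have e2 : N ^ (A * 4) = (N ^ A) ^ 4 := by rw [pow_mul]
      rw [e2]
      ring
    rw [e]
    exact coll hX hc (by positivity)
  · rintro ((w | w) | (w | w))
    · have h : (((idG K).prod (idG K)).prod ((idG K).prod (idG K))).N
          ((((idG K).prod (idG K)).prod ((idG K).prod (idG K))).pr (Sum.inl (Sum.inl w))) =
          ((idG K).N ((idG K).pr w) * (idG K).N 1) * ((idG K).N 1 * (idG K).N 1) := rfl
      rw [h, map_one, mul_one, mul_one, mul_one, pow_one, idG_Npr, prK_N]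
      rfl
    · have h : (((idG K).prod (idG K)).prod ((idG K).prod (idG K))).N
          ((((idG K).prod (idG K)).prod ((idG K).prod (idG K))).pr (Sum.inl (Sum.inr w))) =
          ((idG K).N 1 * (idG K).N ((idG K).pr w)) * ((idG K).N 1 * (idG K).N 1) := rfl
      rw [h, map_one, one_mul, one_mul, mul_one, pow_one, idG_Npr, prK_N]
      rfl
    · have h : (((idG K).prod (idG K)).prod ((idG K).prod (idG K))).N
          ((((idG K).prod (idG K)).prod ((idG K).prod (idG K))).pr (Sum.inr (Sum.inl w))) =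
          ((idG K).N 1 * (idG K).N 1) * ((idG K).N ((idG K).pr w) * (idG K).N 1) := rfl
      rw [h, map_one, mul_one, mul_one, one_mul, pow_one, idG_Npr, prK_N]
      rfl
    · have h : (((idG K).prod (idG K)).prod ((idG K).prod (idG K))).N
          ((((idG K).prod (idG K)).prod ((idG K).prod (idG K))).pr (Sum.inr (Sum.inr w))) =
          ((idG K).N 1 * (idG K).N 1) * ((idG K).N 1 * (idG K).N ((idG K).pr w)) := rfl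
      rw [h, map_one, one_mul, one_mul, one_mul, pow_one, idG_Npr, prK_N]
      rfl
  · intro l
    have hs : {q : (Pl K ⊕ Pl K) ⊕ (Pl K ⊕ Pl K) |
        Sum.elim (Sum.elim id id) (Sum.elim id id) q = l} =
        ((({Sum.inl (Sum.inl l), Sum.inl (Sum.inr l), Sum.inr (Sum.inl l), Sum.inr (Sum.inr l)} :
          Finset ((Pl K ⊕ Pl K) ⊕ (Pl K ⊕ Pl K)))) : Set ((Pl K ⊕ Pl K) ⊕ (Pl K ⊕ Pl K))) := by
      ext q
      rcases q with (w | w) | (w | w) <;> simp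
    rw [hs, Set.ncard_coe_finset]
    exact ⟨Finset.finite_toSet _, Finset.card_le_four⟩
  · intro l hl hp
    have hs : {q : (Pl K ⊕ Pl K) ⊕ (Pl K ⊕ Pl K) |
        Sum.elim (Sum.elim id id) (Sum.elim id id) q = l ∧ 1 = 1} =
        ((({Sum.inl (Sum.inl l), Sum.inl (Sum.inr l), Sum.inr (Sum.inl l), Sum.inr (Sum.inr l)} :
          Finset ((Pl K ⊕ Pl K) ⊕ (Pl K ⊕ Pl K)))) : Set ((Pl K ⊕ Pl K) ⊕ (Pl K ⊕ Pl K))) := by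
      ext q
      rcases q with (w | w) | (w | w) <;> simp
    rw [hs, finsum_mem_coe_finset, Finset.sum_insert (by simp), Finset.sum_insert (by simp),
      Finset.sum_insert (by simp), Finset.sum_singleton, ← hBd l hl (not_not.1 hp)]
    have e1 : pch (pch (rch ψ₁) (rch ψ₂)) (pch (rch ψ₃) (rch ψ₄))
        ((((idG K).prod (idG K)).prod ((idG K).prod (idG K))).pr (Sum.inl (Sum.inl l))) =
        ψ₁.χ l.asIdeal := by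
      show (rch ψ₁ ((idG K).pr l) * rch ψ₂ 1) * (rch ψ₃ 1 * rch ψ₄ 1) = _
      rw [map_one, map_one, map_one, mul_one, mul_one, mul_one]
      rfl
    have e2 : pch (pch (rch ψ₁) (rch ψ₂)) (pch (rch ψ₃) (rch ψ₄))
        ((((idG K).prod (idG K)).prod ((idG K).prod (idG K))).pr (Sum.inl (Sum.inr l))) =
        ψ₂.χ l.asIdeal := by
      show (rch ψ₁ 1 * rch ψ₂ ((idG K).pr l)) * (rch ψ₃ 1 * rch ψ₄ 1) = _
      rw [map_one, map_one, map_one, mul_one, mul_one, one_mul]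
      rfl
    have e3 : pch (pch (rch ψ₁) (rch ψ₂)) (pch (rch ψ₃) (rch ψ₄))
        ((((idG K).prod (idG K)).prod ((idG K).prod (idG K))).pr (Sum.inr (Sum.inl l))) =
        ψ₃.χ l.asIdeal := by
      show (rch ψ₁ 1 * rch ψ₂ 1) * (rch ψ₃ ((idG K).pr l) * rch ψ₄ 1) = _
      rw [map_one, map_one, map_one, mul_one, mul_one, one_mul]
      rfl
    have e4 : pch (pch (rch ψ₁) (rch ψ₂)) (pch (rch ψ₃) (rch ψ₄))
        ((((idG K).prod (idG K)).prod ((idG K).prod (idG K))).pr (Sum.inr (Sum.inr l))) =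
        ψ₄.χ l.asIdeal := by
      show (rch ψ₁ 1 * rch ψ₂ 1) * (rch ψ₃ 1 * rch ψ₄ ((idG K).pr l)) = _
      rw [map_one, map_one, map_one, one_mul, one_mul, one_mul]
      rfl
    rw [e1, e2, e3, e4]
    ring

end H77.AQ
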