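import Pool.Agent.H57.SL.Cmt

/-!
# H77 AQ CMA: the comparison theorem with main term, complex coefficients

`cma`: as `H57.SL.cmt` with `g : ι → ℂ` and `W ψ M = κ M + O(D M ^ (1 - δ))`: the sum over the squarefree products is
`L κ Y + O(C c ^ #Bd D Y ^ (1 - δ))`, `L` the product of the `Eu l = (1 + g l / N l) ∏_{q | l} (1 - ψ q / N q)` over all `l`.
`cmc`: the case `κ = 0`.
-/

set_option autoImplicit false

noncomputable section

namespace H77.AQ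

open H57.LI H57.LC H57.SL Polynomial Classical Filter Topology

private theorem cmt_tau_pow (N : ℝ) (k : ℕ) (f : ℝ → ℂ) (M : ℝ) :
    ((tau N : Module.End ℂ (ℝ → ℂ)) ^ k) f M = f (M / N ^ k) := by
  induction k generalizing M with
  | zero => simp
  | succ k ih =>
    rw [pow_succ', Module.End.mul_apply, tau_apply, ih, pow_succ', div_div]

private theorem cmt_apply_sum (N : ℝ) (p : ℂ[X]) (f : ℝ → ℂ) (M : ℝ) :
    op N p f M = ∑ j ∈ p.support, p.coeff j * f (M / N ^ j) := by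
  unfold op
  rw [aeval_def, eval₂_eq_sum, sum_def, LinearMap.sum_apply, Finset.sum_apply]
  refine Finset.sum_congr rfl fun j _ => ?_
  rw [Module.End.mul_apply, Module.algebraMap_end_apply, Pi.smul_apply, cmt_tau_pow, smul_eq_mul]

private theorem cmt_term (N : ℝ) (hN : 2 ≤ N) (f : ℝ → ℂ) (D σ : ℝ) (hf : ∀ M : ℝ, 0 < M → ‖f M‖ ≤ D * M ^ σ)
    (M : ℝ) (hM : 0 < M) (j : ℕ) : ‖f (M / N ^ j)‖ ≤ (N ^ (-σ)) ^ j * (D * M ^ σ) := by
  have hN0 : 0 < N := by linarith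
  refine (hf _ (by positivity)).trans (le_of_eq ?_)
  rw [Real.div_rpow hM.le (by positivity), ← Real.rpow_natCast N j, ← Real.rpow_mul hN0.le, ← Real.rpow_natCast (N ^ (-σ)) j,
    ← Real.rpow_mul hN0.le, div_eq_mul_inv, ← Real.rpow_neg hN0.le]
  have e : -((j : ℝ) * σ) = -σ * (j : ℝ) := by ring
  rw [e]
  ring

private theorem cmt_r1 (N : ℝ) (hN : 2 ≤ N) (σ : ℝ) (hσ : 0 ≤ σ) : N ^ (-σ) ≤ 1 :=
  Real.rpow_le_one_of_one_le_of_nonpos (by linarith) (by linarith)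

private theorem cmt_D (f : ℝ → ℂ) (D σ : ℝ) (hf : ∀ M : ℝ, 0 < M → ‖f M‖ ≤ D * M ^ σ) : 0 ≤ D := by
  have h := hf 1 one_pos
  rw [Real.one_rpow, mul_one] at h
  exact (norm_nonneg _).trans h

private theorem cmt_th (N : ℝ) (hN : 2 ≤ N) (p : ℂ[X]) (h0 : p.coeff 0 = 1) (f : ℝ → ℂ) (D σ : ℝ) (hσ : 0 ≤ σ)
    (hf : ∀ M : ℝ, 0 < M → ‖f M‖ ≤ D * M ^ σ) (M : ℝ) (hM : 0 < M) :
    ‖op N p f M‖ ≤ (1 + l1 p * N ^ (-σ)) * (D * M ^ σ) := by
  classical
  have hD := cmt_D f D σ hf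
  have hn0 : 0 ≤ N ^ (-σ) := Real.rpow_nonneg (by linarith) _
  have hr := cmt_r1 N hN σ hσ
  have hDM : 0 ≤ D * M ^ σ := mul_nonneg hD (Real.rpow_nonneg hM.le _)
  have h0m : 0 ∈ p.support := by
    rw [mem_support_iff, h0]
    exact one_ne_zero
  rw [cmt_apply_sum, ← Finset.add_sum_erase _ _ h0m, h0, one_mul, pow_zero, div_one]
  refine (norm_add_le _ _).trans ?_
  rw [add_mul, one_mul]
  refine add_le_add (hf M hM) ?_
  refine (norm_sum_le _ _).trans ?_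
  have e3 : l1 p * N ^ (-σ) * (D * M ^ σ) = ∑ j ∈ p.support, ‖p.coeff j‖ * (N ^ (-σ) * (D * M ^ σ)) := by
    rw [← Finset.sum_mul]
    unfold l1
    ring
  rw [e3]
  refine (Finset.sum_le_sum fun j hj => ?_).trans
    (Finset.sum_le_sum_of_subset_of_nonneg (Finset.erase_subset 0 p.support) fun j _ _ => by positivity)
  rw [norm_mul]
  have hj0 : j ≠ 0 := Finset.ne_of_mem_erase hj
  refine mul_le_mul_of_nonneg_left ?_ (norm_nonneg _)
  refine (cmt_term N hN f D σ hf M hM j).trans ?_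
  refine mul_le_mul_of_nonneg_right ?_ hDM
  have h1 : (N ^ (-σ)) ^ j ≤ (N ^ (-σ)) ^ 1 := pow_le_pow_of_le_one hn0 hr (by omega)
  rwa [pow_one] at h1

section

variable {𝓘 π ι : Type} [CommMonoid 𝓘] (G : GM 𝓘 π) (p : Pr ι) (ψ : 𝓘 →* ℂ)

/-- the exponent of the factor at `l` -/
private def cv (Th : Set ι) (l : ι) : ℝ := (p.N l : ℝ) ^ (-(3 / 2) : ℝ) + if l ∈ Th then (p.N l : ℝ) ^ (-(3 / 4) : ℝ) else 0

private theorem cv_nonneg (Th : Set ι) (l : ι) : 0 ≤ cv p Th l := by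
  unfold cv
  split_ifs <;> positivity

private theorem cmt_l1_nonneg (P : ℂ[X]) : 0 ≤ l1 P := by
  unfold l1
  exact Finset.sum_nonneg fun _ _ => norm_nonneg _

private theorem cmt_Q (g : ι → ℂ) (T : Finset ι) (S Q : Finset π) (l : ι) (u : π → ι) (f : π → ℕ)
    (hN : ∀ q, G.N (G.pr q) = p.N (u q) ^ f q) (hQ : ∀ q ∈ Q, u q = l) (hd : Disjoint S Q) :
    G.U p g ψ T (S ∪ Q) = op (p.N l) (∏ q ∈ Q, (1 - C (ψ (G.pr q)) * X ^ f q)) (G.U p g ψ T S) := by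
  induction Q using Finset.induction_on with
  | empty => rw [Finset.union_empty, Finset.prod_empty, op_one]
  | insert q Q hq ih =>
    have hd1 : Disjoint S Q := Disjoint.mono_right (Finset.subset_insert q Q) hd
    have hqS : q ∉ S := fun h => (Finset.disjoint_left.1 hd h) (Finset.mem_insert_self q Q)
    have hq' : q ∉ S ∪ Q := by
      rw [Finset.mem_union]
      exact fun h => h.elim hqS hq
    rw [Finset.union_insert, Finset.prod_insert hq, op_mul, ← ih (fun q' h' => hQ q' (Finset.mem_insert_of_mem h')) hd1]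
    funext M
    rw [U_S G p g ψ T (S ∪ Q) q hq' M, op_lin, hN, hQ q (Finset.mem_insert_self q Q)]
    push_cast
    rfl

private theorem cmt_c0 (a : ℂ) (k : ℕ) (hk : 1 ≤ k) : (1 - C a * X ^ k : ℂ[X]).coeff 0 = 1 := by
  rw [coeff_sub, coeff_one_zero, coeff_C_mul, coeff_X_pow, if_neg (by omega), mul_zero, sub_zero]

private theorem cmt_c1 (a : ℂ) (k : ℕ) : (1 - C a * X ^ k : ℂ[X]).coeff 1 = -(if k = 1 then a else 0) := by
  rw [coeff_sub, coeff_one, if_neg one_ne_zero, coeff_C_mul, coeff_X_pow, zero_sub]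
  by_cases h : k = 1
  · rw [if_pos h, if_pos h.symm, mul_one]
  · rw [if_neg h, if_neg (fun h' => h h'.symm), mul_zero]

private theorem cmt_coeff (a : π → ℂ) (f : π → ℕ) (hf : ∀ q, 1 ≤ f q) (Q : Finset π) :
    (∏ q ∈ Q, (1 - C (a q) * X ^ f q) : ℂ[X]).coeff 0 = 1 ∧
    (∏ q ∈ Q, (1 - C (a q) * X ^ f q) : ℂ[X]).coeff 1 = -∑ q ∈ Q, (if f q = 1 then a q else 0) := by
  classical
  induction Q using Finset.induction_on with
  | empty =>
    rw [Finset.prod_empty, Finset.sum_empty, coeff_one_zero, coeff_one, if_neg one_ne_zero, neg_zero]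
    exact ⟨rfl, rfl⟩
  | insert q Q hq ih =>
    rw [Finset.prod_insert hq, Finset.sum_insert hq, mul_coeff_zero, mul_coeff_one, ih.1, ih.2, cmt_c0 _ _ (hf q),
      cmt_c1]
    refine ⟨one_mul _, ?_⟩
    ring

private theorem cmt_l1_fac (a : ℂ) (ha : ‖a‖ ≤ 1) (k : ℕ) : l1 (1 - C a * X ^ k) ≤ 2 := by
  have e : (1 - C a * X ^ k : ℂ[X]) = 1 + C (-a) * X ^ k := by
    rw [C_neg]
    ring
  rw [e]
  have h1 := l1_add 1 (C (-a) * X ^ k)
  have h2 := l1_one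
  have h3 := l1_mon (-a) k
  rw [norm_neg] at h3
  linarith

private theorem cmt_l1_prod (a : π → ℂ) (ha : ∀ q, ‖a q‖ ≤ 1) (f : π → ℕ) (Q : Finset π) :
    l1 (∏ q ∈ Q, (1 - C (a q) * X ^ f q)) ≤ 2 ^ Q.card := by
  classical
  induction Q using Finset.induction_on with
  | empty =>
    rw [Finset.prod_empty, Finset.card_empty, pow_zero]
    exact l1_one
  | insert q Q hq ih =>
    rw [Finset.prod_insert hq, Finset.card_insert_of_notMem hq, pow_succ']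
    refine (l1_mul _ _).trans ?_
    exact mul_le_mul (cmt_l1_fac _ (ha q) _) ih (cmt_l1_nonneg _) (by norm_num)

private theorem cmt_l1_g (x : ℂ) (hx : ‖x‖ ≤ 9) : l1 (1 + C x * X) ≤ 10 := by
  have h1 := l1_add 1 (C x * X)
  have h2 := l1_one
  have h3 := l1_mon x 1
  rw [pow_one] at h3
  linarith

/-- the Euler factor -/
def Eu (u : π → ι) (g : ι → ℂ) (l : ι) : ℂ :=
  (1 + g l / (p.N l : ℂ)) * ∏ᶠ q ∈ {q | u q = l}, (1 - ψ (G.pr q) / (G.N (G.pr q) : ℂ))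

private theorem op_lin1 (N : ℝ) (P : ℂ[X]) (a : ℂ) (M : ℝ) :
    op N P (fun x : ℝ => a * (x : ℂ)) M = a * P.eval ((N : ℂ)⁻¹) * M := by
  rw [cmt_apply_sum, eval_eq_sum, Polynomial.sum, Finset.mul_sum, Finset.sum_mul]
  refine Finset.sum_congr rfl fun j _ => ?_
  push_cast
  rw [div_eq_mul_inv, inv_pow]
  ring

private theorem ev_bd (P : ℂ[X]) (x : ℂ) (hx : ‖x‖ ≤ 1) (k : ℕ)
    (h : ∀ j < k, P.coeff j = 0) : ‖P.eval x‖ ≤ l1 P * ‖x‖ ^ k := by
  rw [eval_eq_sum, Polynomial.sum]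
  unfold l1
  rw [Finset.sum_mul]
  refine (norm_sum_le _ _).trans (Finset.sum_le_sum fun j hj => ?_)
  rw [norm_mul, norm_pow]
  refine mul_le_mul_of_nonneg_left ?_ (norm_nonneg _)
  have hjk : k ≤ j := by
    by_contra hcon
    exact (mem_support_iff.1 hj) (h j (by omega))
  exact pow_le_pow_of_le_one (norm_nonneg _) hx hjk

private theorem l1_sub_one (P : ℂ[X]) (h0 : P.coeff 0 = 1) : l1 (P - 1) ≤ l1 P := by
  unfold l1
  have h1 : (P - 1).support ⊆ P.support := by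
    intro j hj
    rw [mem_support_iff, coeff_sub, coeff_one] at hj
    rw [mem_support_iff]
    intro h2
    apply hj
    by_cases hj0 : j = 0
    · rw [hj0, h0] at h2
      exact absurd h2 one_ne_zero
    · rw [h2, if_neg hj0, sub_zero]
  refine (Finset.sum_le_sum_of_subset_of_nonneg h1 fun _ _ _ => norm_nonneg _).trans ?_
  refine Finset.sum_le_sum fun j _ => ?_
  rw [coeff_sub, coeff_one]
  by_cases hj0 : j = 0
  · rw [if_pos hj0, hj0, h0, sub_self, norm_zero]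
    exact norm_nonneg _
  · rw [if_neg hj0, sub_zero]

private theorem cmt_gc (x : ℂ) : (1 + C x * X : ℂ[X]).coeff 0 = 1 ∧ (1 + C x * X : ℂ[X]).coeff 1 = x := by
  constructor
  · rw [coeff_add, coeff_one_zero, coeff_C_mul, coeff_X_zero, mul_zero, add_zero]
  · rw [coeff_add, coeff_one, if_neg one_ne_zero, coeff_C_mul, coeff_X_one, mul_one, zero_add]

private theorem eu_ev (u : π → ι) (f : π → ℕ) (hN : ∀ q, G.N (G.pr q) = p.N (u q) ^ f q)
    (hfin : ∀ l, {q | u q = l}.Finite) (g : ι → ℂ) (l : ι) :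
    ((1 + C (g l) * X) * ∏ q ∈ (hfin l).toFinset, (1 - C (ψ (G.pr q)) * X ^ f q) : ℂ[X]).eval
      (((p.N l : ℝ) : ℂ)⁻¹) = Eu G p ψ u g l := by
  unfold Eu
  rw [eval_mul, eval_prod, finprod_mem_eq_finite_toFinset_prod _ (hfin l)]
  congr 1
  · rw [eval_add, eval_mul, eval_C, eval_X, eval_one, div_eq_mul_inv, Complex.ofReal_natCast]
  · refine Finset.prod_congr rfl fun q hq => ?_
    have h1 : u q = l := (hfin l).mem_toFinset.1 hq
    rw [eval_sub, eval_mul, eval_C, eval_pow, eval_X, eval_one, hN, h1, inv_pow, div_eq_mul_inv]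
    push_cast
    rfl

private theorem eu_bd (e : ℕ) (hψ : ∀ I, ‖ψ I‖ ≤ 1) (u : π → ι) (f : π → ℕ) (hf : ∀ q, 1 ≤ f q)
    (hN : ∀ q, G.N (G.pr q) = p.N (u q) ^ f q) (hfin : ∀ l, {q | u q = l}.Finite)
    (hcard : ∀ l, {q | u q = l}.ncard ≤ e) (g : ι → ℂ) (hg : ∀ l, ‖g l‖ ≤ 9) (Bd : Finset ι)
    (Th : Set ι) (hBd : ∀ l, l ∉ Bd → l ∉ Th → ∑ᶠ q ∈ {q | u q = l ∧ f q = 1}, ψ (G.pr q) = g l)
    (l : ι) : ‖Eu G p ψ u g l - 1‖ ≤ 10 * 2 ^ e * ((p.N l : ℝ) ^ (-(1 / 4) : ℝ) *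
      (cv p Th l + if l ∈ Bd then 1 else 0)) := by
  obtain ⟨P, hP⟩ : ∃ P : ℂ[X], P = (1 + C (g l : ℂ) * X) *
      ∏ q ∈ (hfin l).toFinset, (1 - C (ψ (G.pr q)) * X ^ f q) := ⟨_, rfl⟩
  have hco := cmt_coeff (fun q => ψ (G.pr q)) f hf (hfin l).toFinset
  have hgc := cmt_gc (g l : ℂ)
  have hP0 : P.coeff 0 = 1 := by
    rw [hP, mul_coeff_zero, hco.1, hgc.1, mul_one]
  have hQe : ((hfin l).toFinset).card ≤ e := by
    rw [← Set.ncard_eq_toFinset_card _ (hfin l)]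
    exact hcard l
  have hPl : l1 P ≤ 10 * 2 ^ e := by
    rw [hP]
    refine (l1_mul _ _).trans ?_
    refine mul_le_mul (cmt_l1_g _ (hg l)) ((cmt_l1_prod _ (fun q => hψ _) f _).trans ?_) (cmt_l1_nonneg _)
      (by norm_num)
    exact pow_le_pow_right₀ (by norm_num) hQe
  have hN2 : (2 : ℝ) ≤ p.N l := p.two_le l
  have hN0 : (0 : ℝ) < p.N l := by linarith
  have hNn : ‖(((p.N l : ℝ) : ℂ)⁻¹)‖ = (p.N l : ℝ)⁻¹ := by
    rw [norm_inv, Complex.norm_real, Real.norm_of_nonneg hN0.le]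
  have hNi : ‖(((p.N l : ℝ) : ℂ)⁻¹)‖ ≤ 1 := by
    rw [hNn]
    exact inv_le_one_of_one_le₀ (by linarith)
  have hev : Eu G p ψ u g l - 1 = (P - 1).eval (((p.N l : ℝ) : ℂ)⁻¹) := by
    rw [eval_sub, eval_one, hP, eu_ev G p ψ u f hN hfin g l]
  have hP1l : l1 (P - 1) ≤ 10 * 2 ^ e := (l1_sub_one P hP0).trans hPl
  have hr0 : 0 ≤ cv p Th l := cv_nonneg p Th l
  have hq4 : (0 : ℝ) < (p.N l : ℝ) ^ (-(1 / 4) : ℝ) := Real.rpow_pos_of_pos hN0 _
  rw [hev]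
  by_cases hgood : l ∉ Bd ∧ l ∉ Th
  · have hP1 : P.coeff 1 = 0 := by
      rw [hP, mul_coeff_one, hco.1, hco.2, hgc.1, hgc.2, mul_one, one_mul]
      have h1 := hBd l hgood.1 hgood.2
      have h2 : ∑ᶠ q ∈ {q | u q = l ∧ f q = 1}, ψ (G.pr q) = ∑ q ∈ (hfin l).toFinset, (if f q = 1 then ψ (G.pr q) else 0) := by
        rw [← Finset.sum_filter, ← finsum_mem_coe_finset]
        refine finsum_mem_congr (Set.ext fun q => ?_) fun _ _ => rfl
        rw [Finset.mem_coe, Finset.mem_filter, Set.Finite.mem_toFinset]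
        rfl
      rw [← h2, h1]
      ring
    refine (ev_bd (P - 1) _ hNi 2 fun j hj => ?_).trans ?_
    · have : j = 0 ∨ j = 1 := by omega
      rcases this with rfl | rfl
      · rw [coeff_sub, coeff_one_zero, hP0, sub_self]
      · rw [coeff_sub, coeff_one, if_neg one_ne_zero, hP1, sub_zero]
    · refine mul_le_mul hP1l ?_ (by positivity) (by positivity)
      rw [hNn, if_neg hgood.1, add_zero]
      have h1 : ((p.N l : ℝ)⁻¹) ^ 2 = (p.N l : ℝ) ^ (-2 : ℝ) := by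
        rw [Real.rpow_neg hN0.le, inv_pow]
        congr 1
        exact (Real.rpow_natCast _ 2).symm
      rw [h1]
      have h2 : (p.N l : ℝ) ^ (-2 : ℝ) ≤ (p.N l : ℝ) ^ (-(1 / 4) : ℝ) * (p.N l : ℝ) ^ (-(3 / 2) : ℝ) := by
        rw [← Real.rpow_add hN0]
        exact Real.rpow_le_rpow_of_exponent_le (by linarith) (by norm_num)
      refine h2.trans (mul_le_mul_of_nonneg_left ?_ hq4.le)
      unfold cv
      split_ifs
      · have : 0 ≤ (p.N l : ℝ) ^ (-(3 / 4) : ℝ) := Real.rpow_nonneg hN0.le _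
        linarith
      · linarith
  · refine (ev_bd (P - 1) _ hNi 1 fun j hj => ?_).trans ?_
    · have : j = 0 := by omega
      rw [this, coeff_sub, coeff_one_zero, hP0, sub_self]
    · refine mul_le_mul hP1l ?_ (by positivity) (by positivity)
      rw [hNn, pow_one]
      have h1 : (p.N l : ℝ)⁻¹ = (p.N l : ℝ) ^ (-(1 / 4) : ℝ) * (p.N l : ℝ) ^ (-(3 / 4) : ℝ) := by
        rw [← Real.rpow_add hN0, ← Real.rpow_neg_one]
        norm_num
      rw [h1]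
      refine mul_le_mul_of_nonneg_left ?_ hq4.le
      have h2 : (p.N l : ℝ) ^ (-(3 / 4) : ℝ) ≤ 1 :=
        Real.rpow_le_one_of_one_le_of_nonpos (by linarith) (by norm_num)
      by_cases hb : l ∈ Bd
      · rw [if_pos hb]
        linarith
      · have ht : l ∈ Th := by
          by_contra h3
          exact hgood ⟨hb, h3⟩
        rw [if_neg hb, add_zero]
        unfold cv
        rw [if_pos ht]
        have : 0 ≤ (p.N l : ℝ) ^ (-(3 / 2) : ℝ) := Real.rpow_nonneg hN0.le _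
        linarith

private theorem cma_ind (e : ℕ) (hψ : ∀ I, ‖ψ I‖ ≤ 1) (u : π → ι) (f : π → ℕ) (hf : ∀ q, 1 ≤ f q)
    (hN : ∀ q, G.N (G.pr q) = p.N (u q) ^ f q) (hfin : ∀ l, {q | u q = l}.Finite)
    (hcard : ∀ l, {q | u q = l}.ncard ≤ e) (g : ι → ℂ) (hg : ∀ l, ‖g l‖ ≤ 9) (Bd : Finset ι)
    (Th : Set ι) (hBd : ∀ l, l ∉ Bd → l ∉ Th → ∑ᶠ q ∈ {q | u q = l ∧ f q = 1}, ψ (G.pr q) = g l)
    (κ : ℂ) (D δ : ℝ) (hδ : 0 < δ) (hδ4 : δ ≤ 1 / 4) (hκ : ‖κ‖ ≤ D)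
    (hW : ∀ M : ℝ, 1 ≤ M → ‖G.W ψ M - κ * M‖ ≤ D * M ^ (1 - δ)) (T : Finset ι) (M : ℝ) (hM : 0 < M) :
    ‖G.U p g ψ T (T.biUnion fun l => (hfin l).toFinset) M -
      κ * (∏ l ∈ T, Eu G p ψ u g l) * M‖ ≤
      D * (∏ l ∈ T, ((if l ∈ Bd then 10 * 2 ^ e else 1) * Real.exp (10 * 2 ^ e * cv p Th l))) *
        M ^ (1 - δ) := by
  have hD : 0 ≤ D := (norm_nonneg _).trans hκ
  induction T using Finset.induction_on generalizing M with
  | empty =>
    rw [Finset.biUnion_empty, Finset.prod_empty, Finset.prod_empty, mul_one, mul_one, U_zero]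
    rcases le_or_gt 1 M with h | h
    · exact hW M h
    · have h0 : G.W ψ M = 0 := by
        unfold GM.W
        refine Finset.sum_eq_zero fun I hI => ?_
        rw [G.mem_B] at hI
        have h1 : (1 : ℝ) ≤ G.N I := by exact_mod_cast G.pos I
        linarith
      rw [h0, zero_sub, norm_neg, norm_mul, Complex.norm_real, Real.norm_of_nonneg hM.le]
      refine mul_le_mul hκ ?_ hM.le hD
      calc M = M ^ (1 : ℝ) := (Real.rpow_one M).symm
        _ ≤ M ^ (1 - δ) := Real.rpow_le_rpow_of_exponent_ge hM h.le (by linarith)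
  | insert l T hl ih =>
    have hS : ((insert l T).biUnion fun l => (hfin l).toFinset) =
        (T.biUnion fun l => (hfin l).toFinset) ∪ (hfin l).toFinset := by
      rw [Finset.biUnion_insert, Finset.union_comm]
    have hQ : ∀ q ∈ (hfin l).toFinset, u q = l := fun q hq => (hfin l).mem_toFinset.1 hq
    have hd : Disjoint (T.biUnion fun l => (hfin l).toFinset) (hfin l).toFinset := by
      rw [Finset.disjoint_left]
      intro q hq hq'
      rw [Finset.mem_biUnion] at hq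
      obtain ⟨l', hl', hq⟩ := hq
      have h1 : u q = l' := (hfin l').mem_toFinset.1 hq
      have h2 := hQ q hq'
      rw [h1] at h2
      exact hl (h2 ▸ hl')
    obtain ⟨P, hP⟩ : ∃ P : ℂ[X], P = (1 + C (g l : ℂ) * X) *
        ∏ q ∈ (hfin l).toFinset, (1 - C (ψ (G.pr q)) * X ^ f q) := ⟨_, rfl⟩
    obtain ⟨c, hc⟩ : ∃ c : ℂ, c = ∏ l ∈ T, Eu G p ψ u g l := ⟨_, rfl⟩
    obtain ⟨F, hF⟩ : ∃ F : ℝ → ℂ, F = G.U p g ψ T (T.biUnion fun l => (hfin l).toFinset) -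
        fun x : ℝ => (κ * c) * (x : ℂ) := ⟨_, rfl⟩
    rw [← hc] at ih
    have ihF : ∀ M : ℝ, 0 < M → ‖F M‖ ≤ D * (∏ l ∈ T, ((if l ∈ Bd then 10 * 2 ^ e else 1) *
        Real.exp (10 * 2 ^ e * cv p Th l))) * M ^ (1 - δ) := by
      intro M hM
      rw [hF, Pi.sub_apply]
      exact ih M hM
    have hU : G.U p g ψ (insert l T) ((insert l T).biUnion fun l => (hfin l).toFinset) =
        op (p.N l) P (G.U p g ψ T (T.biUnion fun l => (hfin l).toFinset)) := by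
      rw [hP, op_mul, ← cmt_Q G p ψ g T _ _ l u f hN hQ hd, hS]
      funext M
      rw [U_T G p g ψ T _ l hl M, op_add]
    have hUF : G.U p g ψ (insert l T) ((insert l T).biUnion fun l => (hfin l).toFinset) M -
        κ * (∏ l ∈ insert l T, Eu G p ψ u g l) * M = op (p.N l) P F M := by
      have h1 : G.U p g ψ T (T.biUnion fun l => (hfin l).toFinset) =
          F + fun x : ℝ => (κ * c) * (x : ℂ) := by
        rw [hF, sub_add_cancel]
      rw [hU, h1, map_add, Pi.add_apply, op_lin1, Finset.prod_insert hl, ← hc, hP,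
        eu_ev G p ψ u f hN hfin g l]
      ring
    rw [hUF]
    clear ih
    have ih := ihF
    have hco := cmt_coeff (fun q => ψ (G.pr q)) f hf (hfin l).toFinset
    have hgc := cmt_gc (g l : ℂ)
    have hP0 : P.coeff 0 = 1 := by
      rw [hP, mul_coeff_zero, hco.1, hgc.1, mul_one]
    have hQe : ((hfin l).toFinset).card ≤ e := by
      rw [← Set.ncard_eq_toFinset_card _ (hfin l)]
      exact hcard l
    have hPl : l1 P ≤ 10 * 2 ^ e := by
      rw [hP]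
      refine (l1_mul _ _).trans ?_
      refine mul_le_mul (cmt_l1_g _ (hg l)) ((cmt_l1_prod _ (fun q => hψ _) f _).trans ?_) (cmt_l1_nonneg _)
        (by norm_num)
      exact pow_le_pow_right₀ (by norm_num) hQe
    have hN2 : (2 : ℝ) ≤ p.N l := p.two_le l
    have hN0 : (0 : ℝ) < p.N l := by linarith
    obtain ⟨K, hK⟩ : ∃ K : ℝ, K = ∏ l ∈ T, ((if l ∈ Bd then 10 * 2 ^ e else 1) *
        Real.exp (10 * 2 ^ e * cv p Th l)) := ⟨_, rfl⟩
    rw [← hK] at ih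
    have hK0 : 0 ≤ K := by
      rw [hK]
      refine Finset.prod_nonneg fun l _ => mul_nonneg ?_ (Real.exp_pos _).le
      split_ifs <;> positivity
    have hσ : (0 : ℝ) ≤ 1 - δ := by linarith
    have hDM : 0 ≤ D * K * M ^ (1 - δ) := mul_nonneg (mul_nonneg hD hK0) (Real.rpow_nonneg hM.le _)
    have hr0 : 0 ≤ cv p Th l := cv_nonneg p Th l
    rw [Finset.prod_insert hl, ← hK]
    have key : ∀ F : ℝ, F ≤ (if l ∈ Bd then 10 * 2 ^ e else 1) * Real.exp (10 * 2 ^ e * cv p Th l) →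
        F * (D * K * M ^ (1 - δ)) ≤ D * (((if l ∈ Bd then 10 * 2 ^ e else 1) *
          Real.exp (10 * 2 ^ e * cv p Th l)) * K) * M ^ (1 - δ) := by
      intro F hF
      refine (mul_le_mul_of_nonneg_right hF hDM).trans (le_of_eq ?_)
      ring
    by_cases hb : l ∈ Bd
    · refine (op_bad _ hN2 P _ (D * K) (1 - δ) hσ ih M hM).trans (key _ ?_)
      rw [if_pos hb]
      have h1 : (1 : ℝ) ≤ Real.exp (10 * 2 ^ e * cv p Th l) := Real.one_le_exp (by positivity)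
      have h2 : (0 : ℝ) ≤ 10 * 2 ^ e := by positivity
      nlinarith
    · have h2 := Real.add_one_le_exp (10 * 2 ^ e * cv p Th l)
      by_cases ht : l ∈ Th
      · refine (cmt_th _ hN2 P hP0 _ (D * K) (1 - δ) hσ ih M hM).trans (key _ ?_)
        rw [if_neg hb, one_mul]
        have h1 : (p.N l : ℝ) ^ (-(1 - δ)) ≤ cv p Th l := by
          unfold cv
          rw [if_pos ht]
          have h3 : (p.N l : ℝ) ^ (-(1 - δ)) ≤ (p.N l : ℝ) ^ (-(3 / 4) : ℝ) :=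
            Real.rpow_le_rpow_of_exponent_le (by linarith) (by linarith)
          have h4 : 0 ≤ (p.N l : ℝ) ^ (-(3 / 2) : ℝ) := Real.rpow_nonneg hN0.le _
          linarith
        have h3 : l1 P * (p.N l : ℝ) ^ (-(1 - δ)) ≤ 10 * 2 ^ e * cv p Th l :=
          mul_le_mul hPl h1 (Real.rpow_nonneg hN0.le _) (by positivity)
        linarith
      have hP1 : P.coeff 1 = 0 := by
        rw [hP, mul_coeff_one, hco.1, hco.2, hgc.1, hgc.2, mul_one, one_mul]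
        have h1 := hBd l hb ht
        have h2 : ∑ᶠ q ∈ {q | u q = l ∧ f q = 1}, ψ (G.pr q) = ∑ q ∈ (hfin l).toFinset, (if f q = 1 then ψ (G.pr q) else 0) := by
          rw [← Finset.sum_filter, ← finsum_mem_coe_finset]
          refine finsum_mem_congr (Set.ext fun q => ?_) fun _ _ => rfl
          rw [Finset.mem_coe, Finset.mem_filter, Set.Finite.mem_toFinset]
          rfl
        rw [← h2, h1]
        ring
      refine (op_good _ hN2 P hP0 hP1 _ (D * K) (1 - δ) hσ ih M hM).trans (key _ ?_)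
      rw [if_neg hb, one_mul]
      have h1 : (p.N l : ℝ) ^ (-2 * (1 - δ)) ≤ cv p Th l := by
        unfold cv
        rw [if_neg ht, add_zero]
        exact Real.rpow_le_rpow_of_exponent_le (by linarith) (by linarith)
      have h3 : l1 P * (p.N l : ℝ) ^ (-2 * (1 - δ)) ≤ 10 * 2 ^ e * cv p Th l :=
        mul_le_mul hPl h1 (Real.rpow_nonneg hN0.le _) (by positivity)
      linarith

private theorem cmt_sum (T : Finset ι) : ∑ l ∈ T, (p.N l : ℝ) ^ (-(3 / 2) : ℝ) ≤ p.n * ∑' m : ℕ, (m : ℝ) ^ (-(3 / 2) : ℝ) := by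
  classical
  have hs : Summable fun m : ℕ => (m : ℝ) ^ (-(3 / 2) : ℝ) := Real.summable_nat_rpow.2 (by norm_num)
  have hmaps : ∀ i ∈ T, p.N i ∈ T.image p.N := fun i hi => Finset.mem_image_of_mem _ hi
  rw [← Finset.sum_fiberwise_of_maps_to hmaps]
  have hfib : ∀ m ∈ T.image p.N,
      ∑ i ∈ T.filter (fun i => p.N i = m), (p.N i : ℝ) ^ (-(3 / 2) : ℝ) ≤ p.n * (m : ℝ) ^ (-(3 / 2) : ℝ) := by
    intro m _
    have h1 : ∑ i ∈ T.filter (fun i => p.N i = m), (p.N i : ℝ) ^ (-(3 / 2) : ℝ)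
        = ∑ i ∈ T.filter (fun i => p.N i = m), (m : ℝ) ^ (-(3 / 2) : ℝ) := by
      refine Finset.sum_congr rfl fun i hi => ?_
      rw [(Finset.mem_filter.1 hi).2]
    rw [h1, Finset.sum_const, nsmul_eq_mul]
    refine mul_le_mul_of_nonneg_right ?_ (Real.rpow_nonneg (Nat.cast_nonneg _) _)
    have h2 : (T.filter (fun i => p.N i = m)).card ≤ p.n := by
      rw [← Set.ncard_coe_finset]
      refine (Set.ncard_le_ncard ?_ (p.fin m)).trans (p.mul m)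
      intro i hi
      exact (Finset.mem_filter.1 (Finset.mem_coe.1 hi)).2
    exact_mod_cast h2
  refine (Finset.sum_le_sum hfib).trans ?_
  rw [← Finset.mul_sum]
  refine mul_le_mul_of_nonneg_left ?_ (Nat.cast_nonneg _)
  exact hs.sum_le_tsum _ fun m _ => Real.rpow_nonneg (Nat.cast_nonneg _) _

private theorem exp_sub (x : ℝ) : Real.exp x - 1 ≤ x * Real.exp x := by
  have h := Real.add_one_le_exp (-x)
  have h2 := Real.exp_pos x
  have h3 : Real.exp (-x) * Real.exp x = 1 := by rw [← Real.exp_add, neg_add_cancel, Real.exp_zero]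
  nlinarith

/-- the infinite product with the rate -/
private theorem prod_lim (F : ι → ℂ) (A S0 : ℝ) (hA : 1 ≤ A) (b : ι → ℝ) (hb : ∀ l, 0 ≤ b l)
    (hS : ∀ T : Finset ι, ∑ l ∈ T, b l ≤ S0)
    (hF : ∀ l, ‖F l - 1‖ ≤ A * ((p.N l : ℝ) ^ (-(1 / 4) : ℝ) * b l)) :
    ∃ L : ℂ, HasProd F L ∧ ((∀ l, F l ≠ 0) → L ≠ 0) ∧ ∀ Y : ℝ, 1 ≤ Y →
      ‖∏ l ∈ p.P Y, F l - L‖ ≤ Real.exp (3 * (A * S0)) * Y ^ (-(1 / 4) : ℝ) := by
  have hN0 : ∀ l, (0 : ℝ) < p.N l := fun l => by linarith [p.two_le l]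
  have hN1 : ∀ l, (1 : ℝ) ≤ p.N l := fun l => by linarith [p.two_le l]
  have hS00 : 0 ≤ S0 := by
    have h := hS ∅
    rwa [Finset.sum_empty] at h
  have hA0 : 0 ≤ A := by linarith
  have hb1 : ∀ l, ‖F l - 1‖ ≤ A * b l := by
    intro l
    refine (hF l).trans (mul_le_mul_of_nonneg_left ?_ hA0)
    have h1 : (p.N l : ℝ) ^ (-(1 / 4) : ℝ) ≤ 1 :=
      Real.rpow_le_one_of_one_le_of_nonpos (hN1 l) (by norm_num)
    calc _ ≤ 1 * b l := mul_le_mul_of_nonneg_right h1 (hb l)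
      _ = b l := one_mul _
  have hsum : ∀ T : Finset ι, ∑ l ∈ T, ‖F l - 1‖ ≤ A * S0 := by
    intro T
    refine (Finset.sum_le_sum fun l _ => hb1 l).trans ?_
    rw [← Finset.mul_sum]
    exact mul_le_mul_of_nonneg_left (hS T) hA0
  have hsm : Summable fun l => ‖F l - 1‖ := summable_of_sum_le (fun l => norm_nonneg _) hsum
  have hmul : Multipliable fun l => 1 + (F l - 1) := multipliable_one_add_of_summable hsm
  have hFe : (fun l => 1 + (F l - 1)) = F := by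
    funext l
    ring
  have hPr : HasProd F (∏' l, F l) := by
    rw [hFe] at hmul
    exact hmul.hasProd
  refine ⟨_, hPr, fun hne => ?_, fun Y hY => ?_⟩
  · have h5 := tprod_one_add_ne_zero_of_summable (f := fun l => F l - 1) (fun l => by
      have : 1 + (F l - 1) = F l := by ring
      rw [this]
      exact hne l) hsm
    rwa [hFe] at h5
  have hY0 : 0 < Y := by linarith
  have hYr : 0 < Y ^ (-(1 / 4) : ℝ) := Real.rpow_pos_of_pos hY0 _
  have hE : A * S0 ≤ Real.exp (A * S0) := by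
    have := Real.add_one_le_exp (A * S0)
    linarith
  have hfin : ∀ T' : Finset ι, p.P Y ⊆ T' →
      ‖∏ l ∈ p.P Y, F l - ∏ l ∈ T', F l‖ ≤ Real.exp (3 * (A * S0)) * Y ^ (-(1 / 4) : ℝ) := by
    intro T' hT'
    have h1 : ∏ l ∈ T', F l = (∏ l ∈ p.P Y, F l) * ∏ l ∈ T' \ p.P Y, F l := by
      rw [mul_comm]
      exact (Finset.prod_sdiff hT').symm
    have h2 : ∏ l ∈ p.P Y, F l - ∏ l ∈ T', F l =
        -((∏ l ∈ p.P Y, F l) * (∏ l ∈ T' \ p.P Y, F l - 1)) := by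
      rw [h1]
      ring
    rw [h2, norm_neg, norm_mul]
    have h3 : ‖∏ l ∈ p.P Y, F l‖ ≤ Real.exp (A * S0) := by
      have h4 := Finset.norm_prod_one_add_sub_one_le (p.P Y) fun l => F l - 1
      simp only [show ∀ l, 1 + (F l - 1) = F l from fun l => by ring] at h4
      have h5 := norm_le_norm_sub_add (∏ l ∈ p.P Y, F l) 1
      rw [norm_one] at h5
      have h6 := Real.exp_le_exp.2 (hsum (p.P Y))
      linarith
    have h7 : ∑ l ∈ T' \ p.P Y, ‖F l - 1‖ ≤ (A * S0) * Y ^ (-(1 / 4) : ℝ) := by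
      calc ∑ l ∈ T' \ p.P Y, ‖F l - 1‖ ≤ ∑ l ∈ T' \ p.P Y, (A * Y ^ (-(1 / 4) : ℝ)) * b l := by
            refine Finset.sum_le_sum fun l hl => (hF l).trans ?_
            rw [← mul_assoc]
            refine mul_le_mul_of_nonneg_right (mul_le_mul_of_nonneg_left ?_ hA0) (hb l)
            have hl2 : Y ≤ p.N l := by
              by_contra h8
              exact (Finset.mem_sdiff.1 hl).2 (p.mem_P.2 (not_le.1 h8).le)
            exact Real.rpow_le_rpow_of_nonpos hY0 hl2 (by norm_num)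
        _ = (A * Y ^ (-(1 / 4) : ℝ)) * ∑ l ∈ T' \ p.P Y, b l := by rw [Finset.mul_sum]
        _ ≤ (A * Y ^ (-(1 / 4) : ℝ)) * S0 := mul_le_mul_of_nonneg_left (hS _) (by positivity)
        _ = _ := by ring
    have h9 : ‖∏ l ∈ T' \ p.P Y, F l - 1‖ ≤ Y ^ (-(1 / 4) : ℝ) * (Real.exp (A * S0)) ^ 2 := by
      have h4 := Finset.norm_prod_one_add_sub_one_le (T' \ p.P Y) fun l => F l - 1
      simp only [show ∀ l, 1 + (F l - 1) = F l from fun l => by ring] at h4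
      refine h4.trans ((exp_sub _).trans ?_)
      have h10 := Real.exp_le_exp.2 (hsum (T' \ p.P Y))
      calc _ ≤ ((A * S0) * Y ^ (-(1 / 4) : ℝ)) * Real.exp (A * S0) :=
            mul_le_mul h7 h10 (Real.exp_pos _).le (by positivity)
        _ ≤ (Real.exp (A * S0) * Y ^ (-(1 / 4) : ℝ)) * Real.exp (A * S0) :=
            mul_le_mul_of_nonneg_right (mul_le_mul_of_nonneg_right hE hYr.le) (Real.exp_pos _).le
        _ = _ := by ring
    calc _ ≤ Real.exp (A * S0) * (Y ^ (-(1 / 4) : ℝ) * (Real.exp (A * S0)) ^ 2) :=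
          mul_le_mul h3 h9 (norm_nonneg _) (Real.exp_pos _).le
      _ = Real.exp (3 * (A * S0)) * Y ^ (-(1 / 4) : ℝ) := by
          have : Real.exp (3 * (A * S0)) = Real.exp (A * S0) ^ 3 := by
            rw [← Real.exp_nat_mul]
            norm_num
          rw [this]
          ring
  have ht : Tendsto (fun T' : Finset ι => ‖∏ l ∈ p.P Y, F l - ∏ l ∈ T', F l‖) atTop
      (𝓝 ‖∏ l ∈ p.P Y, F l - ∏' l, F l‖) := by
    have h1 : Tendsto (fun T' : Finset ι => ∏ l ∈ T', F l) atTop (𝓝 (∏' l, F l)) := hPr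
    exact (tendsto_const_nhds.sub h1).norm
  refine le_of_tendsto ht ?_
  filter_upwards [eventually_ge_atTop (p.P Y)] with T' hT'
  exact hfin T' hT'

end

theorem cma {ι : Type} (p : Pr ι) (e : ℕ) (Th : Set ι)
    (hTh : ∃ C0 : ℝ, ∀ T : Finset ι, (∀ i ∈ T, i ∈ Th) →
      ∑ i ∈ T, (p.N i : ℝ) ^ (-(3 / 4) : ℝ) ≤ C0) :
    ∃ (C c : ℝ), 1 ≤ C ∧ 1 ≤ c ∧ ∀ (𝓘 π : Type) [CommMonoid 𝓘] (G : GM 𝓘 π)
      (ψ : 𝓘 →* ℂ), (∀ I, ‖ψ I‖ ≤ 1) → ∀ (u : π → ι) (f : π → ℕ), (∀ q, 1 ≤ f q) →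
      (∀ q, G.N (G.pr q) = p.N (u q) ^ f q) →
      (∀ l, {q | u q = l}.Finite ∧ {q | u q = l}.ncard ≤ e) →
      ∀ (g : ι → ℂ), (∀ l, ‖g l‖ ≤ 9) → ∀ Bd : Finset ι,
      (∀ l, l ∉ Bd → l ∉ Th → ∑ᶠ q ∈ {q | u q = l ∧ f q = 1}, ψ (G.pr q) = g l) →
      ∀ (κ : ℂ) (D δ : ℝ), 0 < δ → δ ≤ 1 / 4 → ‖κ‖ ≤ D →
      (∀ M : ℝ, 1 ≤ M → ‖G.W ψ M - κ * M‖ ≤ D * M ^ (1 - δ)) →
      ∃ L : ℂ, HasProd (Eu G p ψ u g) L ∧ ((∀ l, Eu G p ψ u g l ≠ 0) → L ≠ 0) ∧
        ∀ Y : ℝ, 1 ≤ Y →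
        ‖∑ s ∈ p.SF Y, ∏ i ∈ s, g i - L * κ * Y‖ ≤ C * c ^ Bd.card * D * Y ^ (1 - δ) := by
  have hs : Summable fun m : ℕ => (m : ℝ) ^ (-(3 / 2) : ℝ) := Real.summable_nat_rpow.2 (by norm_num)
  have hz : 0 ≤ ∑' m : ℕ, (m : ℝ) ^ (-(3 / 2) : ℝ) := tsum_nonneg fun m => Real.rpow_nonneg (Nat.cast_nonneg _) _
  have h2e : (1 : ℝ) ≤ 2 ^ e := one_le_pow₀ (by norm_num)
  obtain ⟨A, hA⟩ : ∃ A : ℝ, A = 10 * 2 ^ e := ⟨_, rfl⟩
  have hA1 : 1 ≤ A := by rw [hA]; linarith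
  have hA0 : 0 ≤ A := by linarith
  obtain ⟨C0, hC0⟩ := hTh
  have hC00 : 0 ≤ C0 := by
    have h := hC0 ∅ (fun i hi => absurd hi (Finset.notMem_empty i))
    rwa [Finset.sum_empty] at h
  obtain ⟨S0, hS0⟩ : ∃ S0 : ℝ, S0 = p.n * ∑' m : ℕ, (m : ℝ) ^ (-(3 / 2) : ℝ) + C0 := ⟨_, rfl⟩
  have hS00 : 0 ≤ S0 := by
    rw [hS0]
    positivity
  have hcv : ∀ T : Finset ι, ∑ l ∈ T, cv p Th l ≤ S0 := by
    intro T
    unfold cv
    rw [Finset.sum_add_distrib, hS0]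
    refine add_le_add (cmt_sum p _) ?_
    rw [← Finset.sum_filter]
    exact hC0 _ fun i hi => (Finset.mem_filter.1 hi).2
  refine ⟨2 * Real.exp (3 * (A * S0)), Real.exp (3 * A), ?_, Real.one_le_exp (by positivity), ?_⟩
  · have := Real.one_le_exp (show (0 : ℝ) ≤ 3 * (A * S0) by positivity)
    linarith
  intro 𝓘 π _ G ψ hψ u f hf hN hq g hg Bd hBd κ D δ hδ hδ4 hκ hW
  have hfin : ∀ l, {q | u q = l}.Finite := fun l => (hq l).1
  have hD : 0 ≤ D := (norm_nonneg _).trans hκ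
  have hb0 : ∀ l, 0 ≤ cv p Th l + (if l ∈ Bd then (1 : ℝ) else 0) := by
    intro l
    have := cv_nonneg p Th l
    split_ifs <;> linarith
  have hbS : ∀ T : Finset ι, ∑ l ∈ T, (cv p Th l + (if l ∈ Bd then (1 : ℝ) else 0)) ≤
      S0 + Bd.card := by
    intro T
    rw [Finset.sum_add_distrib]
    refine add_le_add (hcv T) ?_
    rw [Finset.sum_ite_mem, Finset.sum_const, nsmul_eq_mul, mul_one]
    exact_mod_cast Finset.card_le_card Finset.inter_subset_right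
  have heu := eu_bd G p ψ e hψ u f hf hN hfin (fun l => (hq l).2) g hg Bd Th hBd
  rw [← hA] at heu
  obtain ⟨L, hL1, hL2, hL3⟩ := prod_lim p (Eu G p ψ u g) A (S0 + Bd.card) hA1 _ hb0 hbS heu
  refine ⟨L, hL1, hL2, fun Y hY => ?_⟩
  have hY0 : 0 < Y := by linarith
  have h1 := cma_ind G p ψ e hψ u f hf hN hfin (fun l => (hq l).2) g hg Bd Th hBd κ D δ hδ hδ4 hκ hW
    (p.P Y) Y hY0
  have hS : ∀ q, (G.N (G.pr q) : ℝ) ≤ Y → q ∈ (p.P Y).biUnion fun l => (hfin l).toFinset := by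
    intro q hq
    rw [Finset.mem_biUnion]
    refine ⟨u q, ?_, (hfin (u q)).mem_toFinset.2 rfl⟩
    rw [p.mem_P]
    refine le_trans ?_ hq
    rw [hN]
    push_cast
    exact le_self_pow₀ (p.one_le (u q)) (by have := hf q; omega)
  rw [U_end G p g ψ (p.P Y) _ Y hS] at h1
  have h2 : ∑ s ∈ (p.P Y).powerset.filter (fun s => p.nn s ≤ Y), ∏ i ∈ s, g i =
      ∑ s ∈ p.SF Y, ∏ i ∈ s, g i := rfl
  rw [h2, ← hA] at h1
  have hYr : 0 < Y ^ (1 - δ) := Real.rpow_pos_of_pos hY0 _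
  have hE1 : 1 ≤ Real.exp (3 * A) := Real.one_le_exp (by positivity)
  have hEp : Real.exp (3 * (A * (S0 + Bd.card))) = Real.exp (3 * (A * S0)) * Real.exp (3 * A) ^ Bd.card := by
    rw [← Real.exp_nat_mul, ← Real.exp_add]
    congr 1
    ring
  have hpr : ∏ l ∈ p.P Y, ((if l ∈ Bd then A else 1) * Real.exp (A * cv p Th l)) ≤
      Real.exp (3 * (A * S0)) * Real.exp (3 * A) ^ Bd.card := by
    rw [Finset.prod_mul_distrib, mul_comm, ← Real.exp_sum, ← Finset.mul_sum]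
    refine mul_le_mul ?_ ?_ ?_ (Real.exp_pos _).le
    · refine Real.exp_le_exp.2 ((mul_le_mul_of_nonneg_left (hcv _) hA0).trans ?_)
      have : 0 ≤ A * S0 := by positivity
      linarith
    · rw [Finset.prod_ite_mem, Finset.prod_const]
      have hAE : A ≤ Real.exp (3 * A) := by
        have := Real.add_one_le_exp (3 * A)
        linarith
      calc A ^ (p.P Y ∩ Bd).card ≤ Real.exp (3 * A) ^ (p.P Y ∩ Bd).card :=
            pow_le_pow_left₀ hA0 hAE _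
        _ ≤ _ := pow_le_pow_right₀ hE1 (Finset.card_le_card Finset.inter_subset_right)
    · refine Finset.prod_nonneg fun l _ => ?_
      split_ifs <;> linarith
  have h3 : ‖κ * (∏ l ∈ p.P Y, Eu G p ψ u g l) * Y - L * κ * Y‖ ≤
      D * (Real.exp (3 * (A * S0)) * Real.exp (3 * A) ^ Bd.card) * Y ^ (1 - δ) := by
    have e1 : κ * (∏ l ∈ p.P Y, Eu G p ψ u g l) * Y - L * κ * Y =
        κ * ((∏ l ∈ p.P Y, Eu G p ψ u g l) - L) * Y := by ring
    rw [e1, norm_mul, norm_mul, Complex.norm_real, Real.norm_of_nonneg hY0.le, ← hEp]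
    have h4 := hL3 Y hY
    calc ‖κ‖ * ‖(∏ l ∈ p.P Y, Eu G p ψ u g l) - L‖ * Y
        ≤ D * (Real.exp (3 * (A * (S0 + Bd.card))) * Y ^ (-(1 / 4) : ℝ)) * Y :=
          mul_le_mul_of_nonneg_right (mul_le_mul hκ h4 (norm_nonneg _) hD) hY0.le
      _ = D * Real.exp (3 * (A * (S0 + Bd.card))) * (Y ^ (-(1 / 4) : ℝ) * Y) := by ring
      _ ≤ D * Real.exp (3 * (A * (S0 + Bd.card))) * Y ^ (1 - δ) := by
          refine mul_le_mul_of_nonneg_left ?_ (by positivity)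
          calc Y ^ (-(1 / 4) : ℝ) * Y = Y ^ (-(1 / 4) : ℝ) * Y ^ (1 : ℝ) := by rw [Real.rpow_one]
            _ = Y ^ (3 / 4 : ℝ) := by
                rw [← Real.rpow_add hY0]
                norm_num
            _ ≤ Y ^ (1 - δ) := Real.rpow_le_rpow_of_exponent_le hY (by linarith)
  have h4 : ‖∑ s ∈ p.SF Y, ∏ i ∈ s, g i - κ * (∏ l ∈ p.P Y, Eu G p ψ u g l) * Y‖ ≤
      D * (Real.exp (3 * (A * S0)) * Real.exp (3 * A) ^ Bd.card) * Y ^ (1 - δ) := by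
    refine h1.trans (mul_le_mul_of_nonneg_right (mul_le_mul_of_nonneg_left ?_ hD) hYr.le)
    exact hpr
  have h5 := norm_sub_le_norm_sub_add_norm_sub (∑ s ∈ p.SF Y, ∏ i ∈ s, g i)
    (κ * (∏ l ∈ p.P Y, Eu G p ψ u g l) * Y) (L * κ * Y)
  refine h5.trans ((add_le_add h4 h3).trans (le_of_eq ?_))
  ring

theorem cmc {ι : Type} (p : Pr ι) (e : ℕ) (Th : Set ι)
    (hTh : ∃ C0 : ℝ, ∀ T : Finset ι, (∀ i ∈ T, i ∈ Th) →
      ∑ i ∈ T, (p.N i : ℝ) ^ (-(3 / 4) : ℝ) ≤ C0) :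
    ∃ (C c : ℝ), 1 ≤ C ∧ 1 ≤ c ∧ ∀ (𝓘 π : Type) [CommMonoid 𝓘] (G : GM 𝓘 π)
      (ψ : 𝓘 →* ℂ), (∀ I, ‖ψ I‖ ≤ 1) → ∀ (u : π → ι) (f : π → ℕ), (∀ q, 1 ≤ f q) →
      (∀ q, G.N (G.pr q) = p.N (u q) ^ f q) →
      (∀ l, {q | u q = l}.Finite ∧ {q | u q = l}.ncard ≤ e) →
      ∀ (g : ι → ℂ), (∀ l, ‖g l‖ ≤ 9) → ∀ Bd : Finset ι,
      (∀ l, l ∉ Bd → l ∉ Th → ∑ᶠ q ∈ {q | u q = l ∧ f q = 1}, ψ (G.pr q) = g l) →
      ∀ D δ : ℝ, 0 < δ → δ ≤ 1 / 4 → (∀ M : ℝ, 1 ≤ M → ‖G.W ψ M‖ ≤ D * M ^ (1 - δ)) →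
      ∀ Y : ℝ, 1 ≤ Y → ‖∑ s ∈ p.SF Y, ∏ i ∈ s, g i‖ ≤ C * c ^ Bd.card * D * Y ^ (1 - δ) := by
  obtain ⟨C, c, hC, hc, h⟩ := cma p e Th hTh
  refine ⟨C, c, hC, hc, ?_⟩
  intro 𝓘 π _ G ψ hψ u f hf hN hq g hg Bd hBd D δ hδ hδ4 hW Y hY
  have hD : 0 ≤ D := by
    have h := hW 1 le_rfl
    rw [Real.one_rpow, mul_one] at h
    exact (norm_nonneg _).trans h
  obtain ⟨L, -, -, h3⟩ := h 𝓘 π G ψ hψ u f hf hN hq g hg Bd hBd 0 D δ hδ hδ4
    (by rw [norm_zero]; exact hD) (fun M hM => by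
      rw [zero_mul, sub_zero]
      exact hW M hM)
  have h4 := h3 Y hY
  rwa [mul_zero, zero_mul, sub_zero] at h4

end H77.AQ
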