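import Pool.Agent.H57.LI.Abs
import Pool.Agent.H63.MA.ALem

/-!
# H77 AQ EXA: the expansion of chapter M3, abstract part

`ι` primes of `K`, `κ` primes of `M`, `be : κ → ι` the prime below, `B l` a finite set of primes over `l`. `Tr be B a`: the finite set `a` consists of
primes of the sets `B l`, at most one for each `l`.
-/

set_option autoImplicit false

open scoped Classical
open H57.LI H63.MA

noncomputable section

namespace H77.AQ

variable {ι κ : Type}

/-- transversals -/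
def Tr (be : κ → ι) (B : ι → Finset κ) (a : Finset κ) : Prop :=
  (∀ v ∈ a, v ∈ B (be v)) ∧ Set.InjOn be (a : Set κ)

theorem tr_sum (be : κ → ι) (B : ι → Finset κ) (hB : ∀ l, ∀ v ∈ B l, be v = l) (s : Finset ι)
    (T : Finset (Finset κ)) (hT : ∀ a, a ∈ T ↔ Tr be B a ∧ a.image be = s) (G : κ → ℂ) :
    ∑ a ∈ T, ∏ v ∈ a, G v = ∏ l ∈ s, ∑ v ∈ B l, G v := by
  rw [Finset.prod_sum]
  symm
  have hbe : ∀ p ∈ s.pi B, ∀ x : {x // x ∈ s}, be (p x.1 x.2) = x.1 := fun p hp x =>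
    hB _ _ (Finset.mem_pi.1 hp x.1 x.2)
  refine Finset.sum_bij (fun p _ => s.attach.image fun x => p x.1 x.2) ?_ ?_ ?_ ?_
  · intro p hp
    rw [hT]
    refine ⟨⟨?_, ?_⟩, ?_⟩
    · intro v hv
      obtain ⟨x, -, rfl⟩ := Finset.mem_image.1 hv
      rw [hbe p hp x]
      exact Finset.mem_pi.1 hp x.1 x.2
    · intro v hv w hw h
      obtain ⟨x, -, rfl⟩ := Finset.mem_image.1 (Finset.mem_coe.1 hv)
      obtain ⟨y, -, rfl⟩ := Finset.mem_image.1 (Finset.mem_coe.1 hw)
      rw [hbe p hp x, hbe p hp y] at h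
      have h2 : x = y := Subtype.ext h
      rw [h2]
    · ext l
      rw [Finset.mem_image]
      constructor
      · rintro ⟨v, hv, rfl⟩
        obtain ⟨x, -, rfl⟩ := Finset.mem_image.1 hv
        rw [hbe p hp x]
        exact x.2
      · intro hl
        exact ⟨p l hl, Finset.mem_image.2 ⟨⟨l, hl⟩, Finset.mem_attach _ _, rfl⟩,
          hbe p hp ⟨l, hl⟩⟩
  · intro p hp p' hp' h
    funext l hl
    have h1 : p l hl ∈ s.attach.image fun x => p' x.1 x.2 := by
      rw [← h]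
      exact Finset.mem_image.2 ⟨⟨l, hl⟩, Finset.mem_attach _ _, rfl⟩
    obtain ⟨y, -, hy⟩ := Finset.mem_image.1 h1
    have h2 := hbe p' hp' y
    rw [hy, hbe p hp ⟨l, hl⟩] at h2
    have h3 : y = ⟨l, hl⟩ := Subtype.ext h2.symm
    rw [← hy, h3]
  · intro a ha
    obtain ⟨⟨h1, h2⟩, h3⟩ := (hT a).1 ha
    have h4 : ∀ l ∈ s, ∃ v ∈ a, be v = l := by
      intro l hl
      rw [← h3] at hl
      exact Finset.mem_image.1 hl
    choose f hf1 hf2 using h4
    refine ⟨f, ?_, ?_⟩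
    · rw [Finset.mem_pi]
      intro l hl
      have h5 := h1 _ (hf1 l hl)
      rwa [hf2 l hl] at h5
    · ext v
      rw [Finset.mem_image]
      constructor
      · rintro ⟨x, -, rfl⟩
        exact hf1 x.1 x.2
      · intro hv
        have h5 : be v ∈ s := by
          rw [← h3]
          exact Finset.mem_image_of_mem _ hv
        exact ⟨⟨be v, h5⟩, Finset.mem_attach _ _,
          h2 (Finset.mem_coe.2 (hf1 _ h5)) (Finset.mem_coe.2 hv) (hf2 _ h5)⟩
  · intro p hp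
    rw [Finset.prod_image]
    intro x _ y _ h
    have h1 := hbe p hp x
    have h2 : p x.1 x.2 = p y.1 y.2 := h
    rw [h2, hbe p hp y] at h1
    exact Subtype.ext h1.symm

theorem tr_fib (be : κ → ι) (B : ι → Finset κ) (hB : ∀ l, ∀ v ∈ B l, be v = l)
    (F : Finset (Finset ι)) (AA : Finset (Finset κ))
    (hA : ∀ a, a ∈ AA ↔ Tr be B a ∧ a.image be ∈ F) (G : κ → ℂ) (H : Finset ι → ℂ) :
    ∑ a ∈ AA, H (a.image be) * ∏ v ∈ a, G v = ∑ s ∈ F, H s * ∏ l ∈ s, ∑ v ∈ B l, G v := by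
  rw [← Finset.sum_fiberwise_of_maps_to (s := AA) (t := F) (g := fun a => a.image be)
    (fun a ha => ((hA a).1 ha).2)]
  refine Finset.sum_congr rfl fun s hs => ?_
  rw [← tr_sum be B hB s (AA.filter fun a => a.image be = s) (fun a => by
    rw [Finset.mem_filter, hA]
    constructor
    · rintro ⟨⟨h1, -⟩, h3⟩
      exact ⟨h1, h3⟩
    · rintro ⟨h1, h3⟩
      exact ⟨⟨h1, by rw [h3]; exact hs⟩, h3⟩) G, Finset.mul_sum]
  refine Finset.sum_congr rfl fun a ha => ?_
  rw [(Finset.mem_filter.1 ha).2]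

/-- the squarefree products with a given part at `q` -/
theorem sf_split (p : Pr ι) (q t : Finset ι) (ht : t ⊆ q) (g : ι → ℂ) (R : ℝ) :
    ∑ s ∈ p.SF R, (if q ∩ s = t then (1 : ℂ) else 0) * ∏ l ∈ s, g l =
      (∏ l ∈ t, g l) * ∑ s ∈ p.SF (R / p.nn t), ∏ l ∈ s, (if l ∈ q then 0 else g l) := by
  have h1 : ∑ s ∈ p.SF R, (if q ∩ s = t then (1 : ℂ) else 0) * ∏ l ∈ s, g l =
      ∑ s ∈ (p.SF R).filter (fun s => q ∩ s = t), ∏ l ∈ s, g l := by
    rw [Finset.sum_filter]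
    refine Finset.sum_congr rfl fun s _ => ?_
    split_ifs
    · rw [one_mul]
    · rw [zero_mul]
  have h2 : ∑ s ∈ p.SF (R / p.nn t), ∏ l ∈ s, (if l ∈ q then 0 else g l) =
      ∑ s ∈ (p.SF (R / p.nn t)).filter (fun s => Disjoint q s), ∏ l ∈ s, g l := by
    rw [Finset.sum_filter]
    refine Finset.sum_congr rfl fun s _ => ?_
    split_ifs with h
    · refine Finset.prod_congr rfl fun l hl => ?_
      rw [if_neg fun h3 => (Finset.disjoint_left.1 h h3) hl]
    · obtain ⟨l, hl, hl2⟩ := Finset.not_disjoint_iff.1 h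
      exact Finset.prod_eq_zero hl2 (if_pos hl)
  rw [h1, h2, Finset.mul_sum]
  have hnn : ∀ s, Disjoint t s → p.nn (t ∪ s) = p.nn t * p.nn s := by
    intro s hs
    unfold Pr.nn
    exact Finset.prod_union hs
  refine Finset.sum_bij' (fun s _ => s \ t) (fun s _ => t ∪ s) ?_ ?_ ?_ ?_ ?_
  · intro s hs
    rw [Finset.mem_filter, p.mem_SF] at hs
    obtain ⟨h3, h4⟩ := hs
    have h5 : t ⊆ s := by
      rw [← h4]
      exact Finset.inter_subset_right
    have h6 : t ∪ (s \ t) = s := Finset.union_sdiff_of_subset h5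
    rw [Finset.mem_filter, p.mem_SF]
    refine ⟨?_, ?_⟩
    · rw [le_div_iff₀ (p.nn_pos t), mul_comm, ← hnn _ Finset.disjoint_sdiff, h6]
      exact h3
    · rw [Finset.disjoint_left]
      intro l hl hl2
      rw [Finset.mem_sdiff] at hl2
      apply hl2.2
      rw [← h4]
      exact Finset.mem_inter.2 ⟨hl, hl2.1⟩
  · intro s hs
    rw [Finset.mem_filter, p.mem_SF] at hs
    obtain ⟨h3, h4⟩ := hs
    have h5 : Disjoint t s := Finset.disjoint_of_subset_left ht h4
    rw [Finset.mem_filter, p.mem_SF]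
    refine ⟨?_, ?_⟩
    · rw [hnn _ h5, mul_comm, ← le_div_iff₀ (p.nn_pos t)]
      exact h3
    · rw [Finset.inter_union_distrib_left, Finset.inter_eq_right.2 ht,
        Finset.disjoint_iff_inter_eq_empty.1 h4, Finset.union_empty]
  · intro s hs
    rw [Finset.mem_filter] at hs
    have h5 : t ⊆ s := by
      rw [← hs.2]
      exact Finset.inter_subset_right
    exact Finset.union_sdiff_of_subset h5
  · intro s hs
    rw [Finset.mem_filter] at hs
    have h5 : Disjoint t s := Finset.disjoint_of_subset_left ht hs.2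
    exact Finset.union_sdiff_cancel_left h5
  · intro s hs
    rw [Finset.mem_filter] at hs
    have h5 : t ⊆ s := by
      rw [← hs.2]
      exact Finset.inter_subset_right
    rw [← Finset.prod_union Finset.disjoint_sdiff, Finset.union_sdiff_of_subset h5]

/-- the sign of `c` -/
def sgc {q : Finset ι} (c : q → ZMod 3) : ℂ := ∏ x : q, if c x = 0 then (-1 : ℂ) else 1

/-- the zeros of `c` -/
def zc {q : Finset ι} (c : q → ZMod 3) : Finset ι :=
  (Finset.univ.filter fun x : q => c x = 0).image Subtype.val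

theorem mem_zc {q : Finset ι} (c : q → ZMod 3) (x : q) : (x : ι) ∈ zc c ↔ c x = 0 := by
  unfold zc
  rw [Finset.mem_image]
  constructor
  · rintro ⟨y, hy, hy2⟩
    rw [← Subtype.ext hy2]
    exact (Finset.mem_filter.1 hy).2
  · intro h
    exact ⟨x, Finset.mem_filter.2 ⟨Finset.mem_univ _, h⟩, rfl⟩

theorem zc_sub {q : Finset ι} (c : q → ZMod 3) : zc c ⊆ q := by
  intro l hl
  unfold zc at hl
  obtain ⟨y, -, rfl⟩ := Finset.mem_image.1 hl
  exact y.2

theorem sgc_norm {q : Finset ι} (c : q → ZMod 3) : ‖sgc c‖ = 1 := by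
  unfold sgc
  rw [norm_prod]
  refine Finset.prod_eq_one fun x _ => ?_
  split_ifs
  · rw [norm_neg, norm_one]
  · rw [norm_one]

theorem ep_sum3 {α : Type} (s : Finset α) (f : α → ZMod 3) :
    ep 3 (∑ i ∈ s, f i) = ∏ i ∈ s, ep 3 (f i) := by
  induction s using Finset.induction_on with
  | empty => rw [Finset.sum_empty, Finset.prod_empty, ep_zero]
  | insert a s ha ih =>
    rw [Finset.prod_insert ha, Finset.sum_insert ha, ep_add Nat.prime_three, ih]

theorem mm_exp (q s : Finset ι) (θ : ι → ZMod 3) :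
    ∏ l ∈ q, (if l ∈ s then (-1 : ℂ) else ep 3 (θ l) + ep 3 (-θ l)) =
      ∑ c : q → ZMod 3, (if q ∩ s = zc c then (1 : ℂ) else 0) *
        (sgc c * ep 3 (∑ x : q, c x * θ x)) := by
  obtain ⟨ff, hff⟩ : ∃ ff : ι → ZMod 3 → ℂ, ∀ l j, ff l j =
      if l ∈ s then (if j = 0 then (-1 : ℂ) else 0) else
        (if j = 0 then 0 else ep 3 (j * θ l)) := ⟨_, fun _ _ => rfl⟩
  have h1 : ∀ l, (if l ∈ s then (-1 : ℂ) else ep 3 (θ l) + ep 3 (-θ l)) =
      ∑ j : ZMod 3, ff l j := by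
    intro l
    have h2 : ∑ j : ZMod 3, ff l j = ff l 0 + ff l 1 + ff l 2 := by
      exact Fin.sum_univ_three (ff l)
    have h10 : (1 : ZMod 3) ≠ 0 := by decide
    have h20 : (2 : ZMod 3) ≠ 0 := by decide
    have h3 : (2 : ZMod 3) * θ l = -θ l := by
      generalize θ l = z
      revert z
      decide
    rw [h2, hff, hff, hff]
    by_cases h : l ∈ s
    · simp only [if_pos h, if_neg h10, if_neg h20]
      simp
    · simp only [if_neg h, if_neg h10, if_neg h20, if_true, zero_add, one_mul, h3]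
  rw [Finset.prod_congr rfl fun l _ => h1 l, ← Finset.prod_coe_sort, Finset.prod_univ_sum,
    Fintype.piFinset_univ]
  refine Finset.sum_congr rfl fun c _ => ?_
  by_cases h : q ∩ s = zc c
  · rw [if_pos h, one_mul, ep_sum3]
    unfold sgc
    rw [← Finset.prod_mul_distrib]
    refine Finset.prod_congr rfl fun x _ => ?_
    rw [hff]
    have h3 : (x : ι) ∈ s ↔ c x = 0 := by
      rw [← mem_zc c x, ← h, Finset.mem_inter]
      exact ⟨fun h4 => ⟨x.2, h4⟩, fun h4 => h4.2⟩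
    by_cases h4 : c x = 0
    · rw [if_pos (h3.2 h4), if_pos h4, if_pos h4, h4, zero_mul, ep_zero, mul_one]
    · rw [if_neg fun h5 => h4 (h3.1 h5), if_neg h4, if_neg h4, one_mul]
  · rw [if_neg h, zero_mul]
    have h3 : ∃ x : q, ¬ ((x : ι) ∈ s ↔ c x = 0) := by
      by_contra h4
      push Not at h4
      apply h
      ext l
      rw [Finset.mem_inter]
      constructor
      · rintro ⟨h5, h6⟩
        exact (mem_zc c ⟨l, h5⟩).2 ((h4 ⟨l, h5⟩).1 h6)
      · intro h5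
        have h6 := zc_sub c h5
        exact ⟨h6, (h4 ⟨l, h6⟩).2 ((mem_zc c ⟨l, h6⟩).1 h5)⟩
    obtain ⟨x, hx⟩ := h3
    refine Finset.prod_eq_zero (Finset.mem_univ x) ?_
    rw [hff]
    by_cases h4 : c x = 0
    · rw [if_neg fun h5 => hx ⟨fun _ => h4, fun _ => h5⟩, if_pos h4]
    · rw [if_neg h4, if_neg h4]
      by_cases h5 : (x : ι) ∈ s
      · rw [if_pos h5]
      · exact absurd ⟨fun h6 => absurd h6 h5, fun h6 => absurd h6 h4⟩ hx

/-- the class condition -/
theorem cls_exp {r : ℕ} (z : Fin r → ZMod 3) : (if z = 0 then (1 : ℂ) else 0) =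
    ((3 : ℂ) ^ r)⁻¹ * ∑ k : Fin r → ZMod 3, ep 3 (dt k z) := by
  have h := alem_orth Nat.prime_three z
  rw [h]
  have h3 : ((3 : ℂ) ^ r) ≠ 0 := pow_ne_zero _ (by norm_num)
  split_ifs with h1
  · push_cast
    rw [inv_mul_cancel₀ h3]
  · rw [mul_zero]

/-- the exact formula -/
theorem ex_sum {r : ℕ} (be : κ → ι) (B : ι → Finset κ) (hB : ∀ l, ∀ v ∈ B l, be v = l) (p : Pr ι)
    (R : ℝ) (AA : Finset (Finset κ)) (hA : ∀ a, a ∈ AA ↔ Tr be B a ∧ a.image be ∈ p.SF R)
    (q : Finset ι) (qv : κ → Fin r → ZMod 3) (cl : ι → κ → ZMod 3) (b : ι → ZMod 3)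
    (cls : Fin r → ZMod 3) :
    ∑ a ∈ AA.filter (fun a => ∑ v ∈ a, qv v = cls),
      ∏ l ∈ q, (if l ∈ a.image be then (-1 : ℂ) else
        ep 3 (b l + ∑ v ∈ a, cl l v) + ep 3 (-(b l + ∑ v ∈ a, cl l v))) =
    ((3 : ℂ) ^ r)⁻¹ * ∑ k : Fin r → ZMod 3, ∑ c : q → ZMod 3,
      ep 3 (-(dt k cls)) * (sgc c * ep 3 (∑ x : q, c x * b x)) *
        ((∏ l ∈ zc c, ∑ v ∈ B l, ep 3 (dt k (qv v) + ∑ x : q, c x * cl x v)) *
          ∑ s ∈ p.SF (R / p.nn (zc c)), ∏ l ∈ s, (if l ∈ q then 0 else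
            ∑ v ∈ B l, ep 3 (dt k (qv v) + ∑ x : q, c x * cl x v))) := by
  have h1 : ∀ a ∈ AA, (if ∑ v ∈ a, qv v = cls then
      ∏ l ∈ q, (if l ∈ a.image be then (-1 : ℂ) else
        ep 3 (b l + ∑ v ∈ a, cl l v) + ep 3 (-(b l + ∑ v ∈ a, cl l v))) else 0) =
      ((3 : ℂ) ^ r)⁻¹ * ∑ k : Fin r → ZMod 3, ∑ c : q → ZMod 3,
        ep 3 (-(dt k cls)) * (sgc c * ep 3 (∑ x : q, c x * b x)) *
          ((if q ∩ a.image be = zc c then (1 : ℂ) else 0) *
            ∏ v ∈ a, ep 3 (dt k (qv v) + ∑ x : q, c x * cl x v)) := by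
    intro a ha
    rw [mm_exp q (a.image be) (fun l => b l + ∑ v ∈ a, cl l v)]
    have h2 : (∑ v ∈ a, qv v = cls) ↔ (∑ v ∈ a, qv v - cls = 0) := sub_eq_zero.symm
    have h3 : ∀ X : ℂ, (if ∑ v ∈ a, qv v = cls then X else 0) =
        ((3 : ℂ) ^ r)⁻¹ * ∑ k : Fin r → ZMod 3, ep 3 (dt k (∑ v ∈ a, qv v - cls)) * X := by
      intro X
      rw [← Finset.sum_mul, ← mul_assoc, ← cls_exp]
      by_cases h4 : ∑ v ∈ a, qv v = cls
      · rw [if_pos h4, if_pos (h2.1 h4), one_mul]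
      · rw [if_neg h4, if_neg fun h5 => h4 (h2.2 h5), zero_mul]
    rw [h3]
    congr 1
    refine Finset.sum_congr rfl fun k _ => ?_
    rw [Finset.mul_sum]
    refine Finset.sum_congr rfl fun c _ => ?_
    have h4 : dt k (∑ v ∈ a, qv v - cls) = -(dt k cls) + ∑ v ∈ a, dt k (qv v) := by
      unfold dt
      rw [Finset.sum_comm, ← Finset.sum_neg_distrib, ← Finset.sum_add_distrib]
      refine Finset.sum_congr rfl fun j _ => ?_
      rw [← Finset.mul_sum, Pi.sub_apply, Finset.sum_apply]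
      ring
    have h5 : ∑ x : q, c x * (b x + ∑ v ∈ a, cl x v) =
        ∑ x : q, c x * b x + ∑ v ∈ a, ∑ x : q, c x * cl x v := by
      rw [Finset.sum_comm, ← Finset.sum_add_distrib]
      refine Finset.sum_congr rfl fun x _ => ?_
      rw [← Finset.mul_sum]
      ring
    have h6 : ∏ v ∈ a, ep 3 (dt k (qv v) + ∑ x : q, c x * cl x v) =
        ep 3 (∑ v ∈ a, dt k (qv v)) * ep 3 (∑ v ∈ a, ∑ x : q, c x * cl x v) := by
      rw [← ep_add Nat.prime_three, ← Finset.sum_add_distrib, ep_sum3]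
    rw [h4, h5, h6, ep_add Nat.prime_three, ep_add Nat.prime_three]
    ring
  rw [Finset.sum_filter, Finset.sum_congr rfl h1, ← Finset.mul_sum]
  congr 1
  rw [Finset.sum_comm]
  refine Finset.sum_congr rfl fun k _ => ?_
  rw [Finset.sum_comm]
  refine Finset.sum_congr rfl fun c _ => ?_
  rw [← Finset.mul_sum]
  congr 1
  rw [tr_fib be B hB (p.SF R) AA hA (fun v => ep 3 (dt k (qv v) + ∑ x : q, c x * cl x v))
    (fun s => if q ∩ s = zc c then (1 : ℂ) else 0)]
  exact sf_split p q (zc c) (zc_sub c) _ R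

end H77.AQ
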