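import Pool.Agent.H67.AQ.Defs
import Pool.Agent.H57.SL.Int

/-!
# H77 AQ INT: interfaces of chapter LA of AQ (MP_b39724_nt) (no proof)

Port of `H57/SL/Int` with the characters `χ ∈ H38.MT.Ch K` in the place of the cubic fields `c : Cu K`:
`c.mu` is `mu Q χ`, `c.D` is `H38.MT.cf Q S χ`, `c.mq S` is `H38.MT.mq Q S χ`, not isomorphic is `χ' ≠ χ` and `χ' ≠ χ⁻¹`.
* `PC1`, `PC2`: power saving for the sums of `mu Q χ`, and of `mu Q χ * mu Q χ'`, outside a finite set `S ∪ e`.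
* `MUX`: few exceptions for the sums of `mu Q χ`. `APX`: `Am χ` is close to `kS S * AV` with few exceptions.
-/

set_option autoImplicit false

open scoped NumberField Classical
open IsDedekindDomain H63.MA NumberField H36.QA H57.LI H57.LC H38.ML H67.AQ H57.SL

noncomputable section

namespace H77.AQ

variable {K : IntermediateField ℚ QBar} [NumberField K]

/-- power saving for one character -/
def PC1 (S : Finset (Pl K)) (Q : DP K QBar) : Prop :=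
  ∃ (C : ℝ) (A : ℕ) (δ : ℝ), 1 ≤ C ∧ 0 < δ ∧ δ ≤ 1 / 4 ∧ ∀ χ ∈ H38.MT.Ch K,
    ∀ (e : Finset (Pl K)) (Y : ℝ), 1 ≤ Y →
    |(prK K).SS (off (S ∪ e) (mu Q χ)) Y| ≤ C * C ^ e.card * H38.MT.cf Q S χ ^ A * Y ^ (1 - δ)

/-- power saving for two characters -/
def PC2 (S : Finset (Pl K)) (Q : DP K QBar) : Prop :=
  ∃ (C : ℝ) (A : ℕ) (δ : ℝ), 1 ≤ C ∧ 0 < δ ∧ δ ≤ 1 / 4 ∧ ∀ χ ∈ H38.MT.Ch K, ∀ χ' ∈ H38.MT.Ch K,
    χ' ≠ χ → χ' ≠ χ⁻¹ → ∀ (e : Finset (Pl K)) (Y : ℝ), 1 ≤ Y →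
    |∑ s ∈ (prK K).SF Y, pd (off (S ∪ e) (mu Q χ)) s * pd (off (S ∪ e) (mu Q χ')) s| ≤
      C * C ^ e.card * (H38.MT.cf Q S χ * H38.MT.cf Q S χ') ^ A * Y ^ (1 - δ)

/-- few exceptions -/
def MUX (S : Finset (Pl K)) (Q : DP K QBar) : Prop :=
  ∀ (A₁ B B1 : ℕ) (ε : ℝ), 0 < ε → ∃ R₀ : ℝ, 3 ≤ R₀ ∧ ∀ R : ℝ, R₀ ≤ R →
    ∀ J : Set (Gal(QBar/K) →* Multiplicative (ZMod 3)),
    (∀ χ ∈ J, χ ∈ H38.MT.Ch K ∧ H38.MT.cf Q S χ ≤ R ^ A₁ ∧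
      ∃ e : Finset (Pl K), (prK K).nn e ≤ Real.log R ^ B1 ∧
      ∃ Z : ℝ, Real.exp (Real.log (Real.log (Real.sqrt R)) ^ 3) ≤ Z ∧
        Z / Real.log R ^ B < |(prK K).SS (off (S ∪ e) (mu Q χ)) Z|) →
    J.Finite ∧ (J.ncard : ℝ) ≤ R ^ ε

/-- `Am χ` is close to the truncated sum with few exceptions -/
def APX (S : Finset (Pl K)) (Q : DP K QBar)
    (Am : (Gal(QBar/K) →* Multiplicative (ZMod 3)) → ℝ) : Prop :=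
  ∀ η₀ : ℝ, 0 < η₀ → η₀ ≤ 1 → ∃ R₀ : ℝ, 3 ≤ R₀ ∧ ∀ R : ℝ, R₀ ≤ R →
    {χ : Gal(QBar/K) →* Multiplicative (ZMod 3) | χ ∈ H38.MT.Ch K ∧ H38.MT.cf Q S χ ≤ R ∧
      1 / Real.log R < |kS S * AV (prK K) S (mu Q χ) (R ^ η₀) - Am χ|}.Finite ∧
    ({χ : Gal(QBar/K) →* Multiplicative (ZMod 3) | χ ∈ H38.MT.Ch K ∧ H38.MT.cf Q S χ ≤ R ∧
      1 / Real.log R < |kS S * AV (prK K) S (mu Q χ) (R ^ η₀) - Am χ|}.ncard : ℝ) ≤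
      R ^ (1 / 2 : ℝ)

end H77.AQ
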