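import Pool.Agent.H77.AQ.Bas
import Pool.Agent.H77.AQ.Ast
import Pool.Agent.H57.SL.Bdn

/-!
# H77 AQ PC: PC1 and PC2 from the cubic ray class characters

`mu Q χ l = ψ_χ(l) + ψ_(χ⁻¹)(l)` and `mu Q χ l * mu Q χ' l` is the sum of the values of the four ray class characters of
`χ χ'`, `(χ χ')⁻¹`, `χ χ'⁻¹`, `(χ χ'⁻¹)⁻¹` at the good primes of prime norm.
-/

set_option autoImplicit false

open scoped NumberField Classical
open IsDedekindDomain H63.MA NumberField H36.QA H57.LI H57.LC H38.ML H67.AQ H57.SL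

noncomputable section

namespace H77.AQ

private theorem pcs_bd {C1 G D Q Y' X : ℝ} {A1 s e b a k N : ℕ} (hC1 : 1 ≤ C1) (hG : 1 ≤ G)
    (hD : 1 ≤ D) (hQ : 0 ≤ Q) (hQG : Q ≤ G * D ^ k) (hN : N ≤ s + e + b) (hb : C1 ^ b ≤ D ^ a)
    (hY : 0 ≤ Y') (hX : X ≤ C1 * C1 ^ N * Q ^ A1 * Y') :
    X ≤ (C1 * C1 ^ s * G ^ A1) * (C1 * C1 ^ s * G ^ A1) ^ e * D ^ (a + k * A1) * Y' := by
  have hC0 : (0 : ℝ) ≤ C1 := by linarith
  have hG0 : (0 : ℝ) ≤ G := by linarith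
  have hD0 : (0 : ℝ) ≤ D := by linarith
  have h1 : C1 ^ N ≤ C1 ^ s * C1 ^ e * D ^ a := by
    calc C1 ^ N ≤ C1 ^ (s + e + b) := pow_le_pow_right₀ hC1 hN
      _ = C1 ^ s * C1 ^ e * C1 ^ b := by rw [pow_add, pow_add]
      _ ≤ C1 ^ s * C1 ^ e * D ^ a := mul_le_mul_of_nonneg_left hb (by positivity)
  have h2 : Q ^ A1 ≤ G ^ A1 * D ^ (k * A1) := by
    calc Q ^ A1 ≤ (G * D ^ k) ^ A1 := pow_le_pow_left₀ hQ hQG A1
      _ = G ^ A1 * D ^ (k * A1) := by rw [mul_pow, ← pow_mul]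
  have h3 : C1 ^ e ≤ (C1 * C1 ^ s * G ^ A1) ^ e := by
    refine pow_le_pow_left₀ hC0 ?_ e
    have h4 : 1 ≤ C1 ^ s := one_le_pow₀ hC1
    have h5 : 1 ≤ G ^ A1 := one_le_pow₀ hG
    calc C1 = C1 * 1 * 1 := by ring
      _ ≤ C1 * C1 ^ s * G ^ A1 := by gcongr
  refine hX.trans ?_
  refine mul_le_mul_of_nonneg_right ?_ hY
  calc C1 * C1 ^ N * Q ^ A1 ≤ C1 * (C1 ^ s * C1 ^ e * D ^ a) * (G ^ A1 * D ^ (k * A1)) := by
        gcongr
    _ = (C1 * C1 ^ s * G ^ A1) * C1 ^ e * D ^ (a + k * A1) := by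
        rw [pow_add]
        ring
    _ ≤ (C1 * C1 ^ s * G ^ A1) * (C1 * C1 ^ s * G ^ A1) ^ e * D ^ (a + k * A1) := by
        gcongr

variable {K : IntermediateField ℚ QBar} [NumberField K]

private theorem mB_nm (B : Finset (Pl K)) :
    (Ideal.absNorm (mB B) : ℝ) = (27 : ℝ) ^ Module.finrank ℚ K * nr B := by
  unfold mB nr
  have h3 : Ideal.absNorm (Ideal.span {(27 : 𝓞 K)}) = 27 ^ Module.finrank ℚ K := by
    have h4 : (27 : 𝓞 K) = ((27 : ℕ) : 𝓞 K) := by norm_num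
    rw [h4, Ideal.absNorm_span_natCast, RingOfIntegers.rank]
  rw [map_mul, map_prod, h3]
  push_cast
  rfl

private theorem mB_bot (B : Finset (Pl K)) : mB B ≠ (⊥ : Ideal (𝓞 K)) := by
  intro h
  have h1 := mB_nm B
  rw [h] at h1
  have h2 : (0 : ℝ) < nr B := by linarith [one_le_nrB B]
  have h3 : (0 : ℝ) < (27 : ℝ) ^ Module.finrank ℚ K * nr B := by positivity
  rw [← h1] at h3
  simp at h3

private theorem off_bd (Q : DP K QBar) (T : Finset (Pl K))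
    (χ : Gal(QBar/K) →* Multiplicative (ZMod 3)) (l : Pl K) : |off T (mu Q χ) l| ≤ 2 := by
  unfold off
  split_ifs
  · simp
  · exact (mu_bd Q χ l).1

private theorem nrm_le (S B B' : Finset (Pl K)) (h : B ⊆ B') {D : ℝ} (hD : (nr B' : ℝ) ≤ D) :
    (Ideal.absNorm (mB (S ∪ B)) : ℝ) ≤ ((27 : ℝ) ^ Module.finrank ℚ K * nr S) * D ^ 1 := by
  rw [mB_nm, pow_one, mul_assoc]
  have h1 := nr_un S B
  have h2 := nr_sub h
  have h3 := one_le_nrB S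
  have h4 : (nr (S ∪ B) : ℝ) ≤ nr S * D := h1.trans (by gcongr; exact h2.trans hD)
  exact mul_le_mul_of_nonneg_left h4 (by positivity)

theorem pc1 (S : Finset (Pl K)) (Q : DP K QBar) (hC : CRC S Q)
    (hI : ICG (Module.finrank ℚ K)) : PC1 S Q := by
  obtain ⟨C1, A1, δ, hC1, hδ, hδ4, hast⟩ := ast2 K hI
  obtain ⟨a, ha⟩ := cpw K C1
  obtain ⟨G, hG⟩ : ∃ G : ℝ, G = (27 : ℝ) ^ Module.finrank ℚ K * nr S := ⟨_, rfl⟩
  have hG1 : 1 ≤ G := by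
    rw [hG]
    exact one_le_mul_of_one_le_of_one_le (one_le_pow₀ (by norm_num)) (one_le_nrB S)
  refine ⟨C1 * C1 ^ S.card * G ^ A1, a + 1 * A1, δ, ?_, hδ, hδ4, ?_⟩
  · exact one_le_mul_of_one_le_of_one_le (one_le_mul_of_one_le_of_one_le hC1 (one_le_pow₀ hC1))
      (one_le_pow₀ hG1)
  intro χ hχ e Y hY
  have hχ' := ch_inv hχ
  obtain ⟨ψ, hψ, hψv⟩ := hC χ hχ
  obtain ⟨ψ', hψ', hψv'⟩ := hC χ⁻¹ hχ'
  have hrf := rf_inv Q S (ch_ft hχ) (ch_ft hχ')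
  have hcf := one_le_cf Q S χ
  have hn1 := nrm_le S (H38.MT.rf Q S χ) (H38.MT.rf Q S χ) subset_rfl (D := H38.MT.cf Q S χ) le_rfl
  have hn2 := nrm_le S (H38.MT.rf Q S χ⁻¹) (H38.MT.rf Q S χ) hrf.subset
    (D := H38.MT.cf Q S χ) le_rfl
  rw [← hG] at hn1 hn2
  have key := hast _ _ (mB_bot _) (mB_bot _) ψ ψ' hψ hψ' (G * H38.MT.cf Q S χ ^ 1) hn1 hn2
    (off (S ∪ e) (mu Q χ)) (fun l => (off_bd Q _ χ l).trans (by norm_num))
    (S ∪ e ∪ H38.MT.rf Q S χ) ?_ Y hY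
  · refine pcs_bd hC1 hG1 hcf ?_ le_rfl ?_ (ha (H38.MT.rf Q S χ))
      (Real.rpow_nonneg (by linarith) _) key
    · positivity
    · exact (Finset.card_union_le _ _).trans (Nat.add_le_add_right (Finset.card_union_le _ _) _)
  · intro l hl hp
    simp only [Finset.mem_union, not_or] at hl
    obtain ⟨⟨hlS, hle⟩, hlB⟩ := hl
    unfold off
    rw [if_neg (by simp [hlS, hle]), mu_ep Q (ch_ft hχ) hlS hlB, hψv l hlS hlB hp,
      hψv' l hlS (by rw [hrf]; exact hlB) hp]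
    rfl

theorem pc2 (S : Finset (Pl K)) (Q : DP K QBar) (hC : CRC S Q)
    (hI : ICG (Module.finrank ℚ K)) : PC2 S Q := by
  obtain ⟨C1, A1, δ, hC1, hδ, hδ4, hast⟩ := ast4 K hI
  obtain ⟨a, ha⟩ := cpw K C1
  obtain ⟨G, hG⟩ : ∃ G : ℝ, G = (27 : ℝ) ^ Module.finrank ℚ K * nr S := ⟨_, rfl⟩
  have hG1 : 1 ≤ G := by
    rw [hG]
    exact one_le_mul_of_one_le_of_one_le (one_le_pow₀ (by norm_num)) (one_le_nrB S)
  refine ⟨C1 * C1 ^ S.card * G ^ A1, a + 1 * A1, δ, ?_, hδ, hδ4, ?_⟩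
  · exact one_le_mul_of_one_le_of_one_le (one_le_mul_of_one_le_of_one_le hC1 (one_le_pow₀ hC1))
      (one_le_pow₀ hG1)
  intro χ hχ χ' hχ' hne hne' e Y hY
  have hi := ch_inv hχ'
  have ha1 : χ * χ' ∈ H38.MT.Ch K := ch_mul hχ hχ' hne'
  have ha2 : χ * χ'⁻¹ ∈ H38.MT.Ch K := ch_mul hχ hi (fun h => hne (inv_injective h))
  have hb1 := ch_inv ha1
  have hb2 := ch_inv ha2
  obtain ⟨ψ₁, h1, hv1⟩ := hC _ ha1
  obtain ⟨ψ₂, h2, hv2⟩ := hC _ hb1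
  obtain ⟨ψ₃, h3, hv3⟩ := hC _ ha2
  obtain ⟨ψ₄, h4, hv4⟩ := hC _ hb2
  obtain ⟨B, hB⟩ : ∃ B, B = H38.MT.rf Q S χ ∪ H38.MT.rf Q S χ' := ⟨_, rfl⟩
  have hs1 : H38.MT.rf Q S (χ * χ') ⊆ B := by
    rw [hB]
    exact rf_mul Q S (ch_ft hχ) (ch_ft hχ') (ch_ft ha1)
  have hs3 : H38.MT.rf Q S (χ * χ'⁻¹) ⊆ B := by
    rw [hB, ← rf_inv Q S (ch_ft hχ') (ch_ft hi)]
    exact rf_mul Q S (ch_ft hχ) (ch_ft hi) (ch_ft ha2)
  have hs2 : H38.MT.rf Q S (χ * χ')⁻¹ ⊆ B := by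
    rw [rf_inv Q S (ch_ft ha1) (ch_ft hb1)]
    exact hs1
  have hs4 : H38.MT.rf Q S (χ * χ'⁻¹)⁻¹ ⊆ B := by
    rw [rf_inv Q S (ch_ft ha2) (ch_ft hb2)]
    exact hs3
  obtain ⟨D, hD⟩ : ∃ D, D = H38.MT.cf Q S χ * H38.MT.cf Q S χ' := ⟨_, rfl⟩
  have hD1 : 1 ≤ D := by
    rw [hD]
    exact one_le_mul_of_one_le_of_one_le (one_le_cf Q S χ) (one_le_cf Q S χ')
  have hBD : (nr B : ℝ) ≤ D := by
    rw [hB, hD]
    exact nr_un _ _
  have hn1 := nrm_le S _ B hs1 hBD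
  have hn2 := nrm_le S _ B hs2 hBD
  have hn3 := nrm_le S _ B hs3 hBD
  have hn4 := nrm_le S _ B hs4 hBD
  rw [← hG] at hn1 hn2 hn3 hn4
  have hsum : ∑ s ∈ (prK K).SF Y, pd (off (S ∪ e) (mu Q χ)) s * pd (off (S ∪ e) (mu Q χ')) s =
      ∑ s ∈ (prK K).SF Y, pd (fun l => off (S ∪ e) (mu Q χ) l * off (S ∪ e) (mu Q χ') l) s := by
    refine Finset.sum_congr rfl fun s _ => ?_
    unfold pd
    rw [Finset.prod_mul_distrib]
  rw [hsum, ← hD]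
  have hg9 : ∀ l, |off (S ∪ e) (mu Q χ) l * off (S ∪ e) (mu Q χ') l| ≤ 9 := by
    intro l
    rw [abs_mul]
    have h1 := off_bd Q (S ∪ e) χ l
    have h2 := off_bd Q (S ∪ e) χ' l
    have h4 := abs_nonneg (off (S ∪ e) (mu Q χ) l)
    have h5 := abs_nonneg (off (S ∪ e) (mu Q χ') l)
    nlinarith
  have key := hast _ _ _ _ (mB_bot _) (mB_bot _) (mB_bot _) (mB_bot _) ψ₁ ψ₂ ψ₃ ψ₄ h1 h2 h3 h4
    (G * D ^ 1) hn1 hn2 hn3 hn4
    (fun l => off (S ∪ e) (mu Q χ) l * off (S ∪ e) (mu Q χ') l) hg9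
    (S ∪ e ∪ B) ?_ Y hY
  · refine pcs_bd hC1 hG1 hD1 ?_ le_rfl ?_ ((ha B).trans ?_)
      (Real.rpow_nonneg (by linarith) _) key
    · positivity
    · exact (Finset.card_union_le _ _).trans (Nat.add_le_add_right (Finset.card_union_le _ _) _)
    · exact pow_le_pow_left₀ (by linarith [one_le_nrB B]) hBD a
  · intro l hl hp
    simp only [Finset.mem_union, not_or] at hl
    obtain ⟨⟨hlS, hle⟩, hlB⟩ := hl
    have hl1 : l ∉ H38.MT.rf Q S χ := fun h => hlB (by rw [hB]; exact Finset.mem_union_left _ h)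
    have hl2 : l ∉ H38.MT.rf Q S χ' := fun h => hlB (by rw [hB]; exact Finset.mem_union_right _ h)
    have e0 : ((off (S ∪ e) (mu Q χ) l * off (S ∪ e) (mu Q χ') l : ℝ) : ℂ) =
        ((mu Q χ l : ℝ) : ℂ) * ((mu Q χ' l : ℝ) : ℂ) := by
      unfold off
      rw [if_neg (by simp [hlS, hle]), if_neg (by simp [hlS, hle])]
      push_cast
      rfl
    rw [e0, mu_ep Q (ch_ft hχ) hlS hl1, mu_ep Q (ch_ft hχ') hlS hl2,
      hv1 l hlS (fun h => hlB (hs1 h)) hp, hv2 l hlS (fun h => hlB (hs2 h)) hp,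
      hv3 l hlS (fun h => hlB (hs3 h)) hp, hv4 l hlS (fun h => hlB (hs4 h)) hp]
    obtain ⟨x, hx⟩ : ∃ x : ZMod 3, x = Multiplicative.toAdd (χ (fr Q l)) := ⟨_, rfl⟩
    obtain ⟨y, hy⟩ : ∃ y : ZMod 3, y = Multiplicative.toAdd (χ' (fr Q l)) := ⟨_, rfl⟩
    have f1 : Multiplicative.toAdd ((χ * χ') (fr Q l)) = x + y := by
      rw [MonoidHom.mul_apply, toAdd_mul, hx, hy]
    have f2 : Multiplicative.toAdd ((χ * χ')⁻¹ (fr Q l)) = -x + -y := by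
      rw [MonoidHom.inv_apply, toAdd_inv, f1, neg_add]
    have f3 : Multiplicative.toAdd ((χ * χ'⁻¹) (fr Q l)) = x + -y := by
      rw [MonoidHom.mul_apply, MonoidHom.inv_apply, toAdd_mul, toAdd_inv, hx, hy]
    have f4 : Multiplicative.toAdd ((χ * χ'⁻¹)⁻¹ (fr Q l)) = -x + y := by
      rw [MonoidHom.inv_apply, toAdd_inv, f3, neg_add, neg_neg]
    rw [f1, f2, f3, f4, ← hx, ← hy, ep_add Nat.prime_three, ep_add Nat.prime_three,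
      ep_add Nat.prime_three, ep_add Nat.prime_three]
    ring

end H77.AQ
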