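import Pool.Agent.H48.M3.Def

/-!
# H77 AQ RAYD: the hypothesis (RAY) of chapter M3 (definition only)
-/

set_option autoImplicit false

open scoped NumberField Classical
open IsDedekindDomain H38.ML H63.MA

noncomputable section

namespace H77.AQ

variable {K : IntermediateField ℚ QBar} [NumberField K] {M : IntermediateField K QBar}
  [NumberField M] {ω : M}

/-- the symbol of `v` at `l` -/
def clq (D : RD0 M 3 ω) (τ : Gal(M/K)) (l : Pl K) (v : Pl M) : ZMod 3 :=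
  lg 3 ω (H48.M3.pw M l) (D.pi v * (H48.M3.cj τ (D.pi v))⁻¹)

/-- the nontrivial combinations of the class vector and of the symbols at the primes of `q` are nontrivial ray class characters -/
def RAYs (D : RD0 M 3 ω) (τ : Gal(M/K)) (S : Finset (Pl K)) : Prop :=
  ∃ (C₀ : ℝ) (A₀ : ℕ), 1 ≤ C₀ ∧ ∀ q : Finset (Pl K), (∀ l ∈ q, l ∉ S) →
    ∀ (k : Fin D.r → ZMod 3) (c : Pl K → ZMod 3), (∀ l, l ∉ q → c l = 0) → (k ≠ 0 ∨ c ≠ 0) →
    ∃ 𝔣 : Ideal (𝓞 M), 𝔣 ≠ ⊥ ∧ (Ideal.absNorm 𝔣 : ℝ) ≤ C₀ * nr q ^ A₀ ∧ ∃ ψ : RC M 𝔣, ψ.Non ∧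
      ∀ l : Pl K, l ∉ S → l ∉ q → ∀ v : Pl M, Over v l → H48.M3.tv τ v ≠ v →
        ψ.χ v.asIdeal = ep 3 (dt k (D.q v) + ∑ l' ∈ q, c l' * clq D τ l' v)

end H77.AQ
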